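import Mathlib
import Pool.Agent.Lib.MP_14ee70_nt.TY.Defs

/-!
# Project TY, file F/Reg: the facts which follow from the regime `Reg A`, for `A` large

`RegF C` is the list of facts used by the other parts (for `C` large).  Proof of `reg_facts`: `log L ≥ A`,
`log y = L / (k + 5/8)`, `k ≥ L^(9/20)`, `k^2 ≤ L`:
`log y ≤ L / k ≤ L^(11/20)`; `log y ≥ η k^2 ≥ A k (log L)^7`; `η ≤ log y / k^2 ≤ L^(11/20 - 18/20) ≤ L^(-1/3)`;
`η ≥ A (log L)^7 / k ≥ L^(-1/2)`; `log (3 D) = log 3 + K_0 log (k+1) ≤ log 3 + (60 log L + 1) log L ≤ 63 (log L)^2`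
(`k + 1 ≤ L`); `L ≥ log L`, `N = exp L ≥ L`, `y ≥ log y`.
-/

namespace MP14ee70.TY

open Finset

/-- Facts for large parameters. -/
structure RegF (C : ℝ) (N k : ℕ) (L y η : ℝ) : Prop where
  hL : L = Real.log N
  logL : C ≤ Real.log L
  one_le_logL : 1 ≤ Real.log L
  Lbig : C ≤ L
  one_le_L : 1 ≤ L
  Nbig : C ≤ N
  one_le_N : 1 ≤ N
  kbig : C ≤ k
  one_le_k : 1 ≤ k
  ypos : 0 < y
  ybig : C ≤ y
  logy : Real.log y = L / (k + 5 / 8)
  logy_big : C * k * Real.log L ^ 7 ≤ Real.log y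
  logy_le : Real.log y ≤ L ^ (3 / 5 : ℝ)
  η_pos : 0 < η
  η_hi : η ≤ L ^ (-(1 / 3) : ℝ)
  η_lo : L ^ (-(1 / 2) : ℝ) ≤ η
  kη : C * Real.log L ^ 7 ≤ k * η
  ηk : η * (k : ℝ) ^ 2 ≤ Real.log y
  k_hi : (k : ℝ) ^ 2 ≤ L
  k_lo : L ^ (9 / 20 : ℝ) ≤ k
  one_le_D : 1 ≤ DD k L
  logD : Real.log (3 * DD k L) ≤ 63 * Real.log L ^ 2

theorem Reg.mono {A A' : ℝ} {N k : ℕ} {L y η : ℝ} (h : Reg A N k L y η) (h1 : 1 ≤ A') (hA : A' ≤ A) :
    Reg A' N k L y η := by
  have hl : 0 ≤ Real.log L := by linarith [h.hA1, h.hA]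
  exact ⟨h1, h.hL, hA.trans h.hA, h.hk_lo, h.hk_hi, h.hy,
    (mul_le_mul_of_nonneg_right hA (pow_nonneg hl 7)).trans h.hη_lo, h.hη_hi⟩

theorem RegF.mono {C C' : ℝ} {N k : ℕ} {L y η : ℝ} (h : RegF C N k L y η) (hC : C' ≤ C) :
    RegF C' N k L y η := by
  have hl : 0 ≤ Real.log L := by linarith [h.one_le_logL]
  have hl7 : 0 ≤ Real.log L ^ 7 := pow_nonneg hl 7
  have hk0 : (0 : ℝ) ≤ k := by positivity
  exact { hL := h.hL
          logL := hC.trans h.logL
          one_le_logL := h.one_le_logL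
          Lbig := hC.trans h.Lbig
          one_le_L := h.one_le_L
          Nbig := hC.trans h.Nbig
          one_le_N := h.one_le_N
          kbig := hC.trans h.kbig
          one_le_k := h.one_le_k
          ypos := h.ypos
          ybig := hC.trans h.ybig
          logy := h.logy
          logy_big := (mul_le_mul_of_nonneg_right (mul_le_mul_of_nonneg_right hC hk0) hl7).trans
            h.logy_big
          logy_le := h.logy_le
          η_pos := h.η_pos
          η_hi := h.η_hi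
          η_lo := h.η_lo
          kη := (mul_le_mul_of_nonneg_right hC hl7).trans h.kη
          ηk := h.ηk
          k_hi := h.k_hi
          k_lo := h.k_lo
          one_le_D := h.one_le_D
          logD := h.logD }

theorem reg_facts' (C : ℝ) : ∃ A : ℝ, 1 ≤ A ∧
    ∀ (N k : ℕ) (L y η : ℝ), Reg A N k L y η → RegF C N k L y η := by
  refine ⟨10 * (|C| + 1), by have := abs_nonneg C; linarith, fun N k L y η h => ?_⟩
  have hC0 := abs_nonneg C
  have hC1 := le_abs_self C
  set lam : ℝ := Real.log L with hlam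
  have hlamA : 10 * (|C| + 1) ≤ lam := h.hA
  have hlam10 : 10 ≤ lam := by linarith
  have hL0 : 0 ≤ L := by rw [h.hL]; exact Real.log_natCast_nonneg N
  have hLne : L ≠ 0 := by
    intro h0
    rw [h0, Real.log_zero] at hlam
    linarith
  have hLpos : 0 < L := lt_of_le_of_ne hL0 (Ne.symm hLne)
  have hLexp : L = Real.exp lam := (Real.exp_log hLpos).symm
  have hlamL : lam + 1 ≤ L := by rw [hLexp]; exact Real.add_one_le_exp lam
  have hN0 : N ≠ 0 := by
    intro h0
    have := h.hL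
    rw [h0, Nat.cast_zero, Real.log_zero] at this
    exact hLne this
  have hNpos : (0 : ℝ) < N := by exact_mod_cast Nat.pos_of_ne_zero hN0
  have hNexp : (N : ℝ) = Real.exp L := by rw [h.hL, Real.exp_log hNpos]
  have hNL : L + 1 ≤ N := by rw [hNexp]; exact Real.add_one_le_exp L
  have hk1 : 9 / 20 * lam + 1 ≤ (k : ℝ) := by
    refine le_trans ?_ h.hk_lo
    rw [Real.rpow_def_of_pos hLpos]
    have := Real.add_one_le_exp (Real.log L * (9 / 20))
    linarith
  have hkC : C ≤ k := by linarith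
  have hk5 : (5 : ℝ) ≤ k := by linarith
  have hkpos : (0 : ℝ) < k := by linarith
  have hypos : 0 < y := by rw [h.hy]; exact Real.exp_pos _
  have hlogy : Real.log y = L / (k + 5 / 8) := by rw [h.hy, Real.log_exp]
  have hlam7 : 1 ≤ lam ^ 7 := one_le_pow₀ (by linarith)
  have hbig : C * k * lam ^ 7 ≤ Real.log y := by
    refine le_trans ?_ h.hη_hi
    have h1 := mul_le_mul_of_nonneg_right h.hη_lo hkpos.le
    have h2 : C * k * lam ^ 7 ≤ 10 * (|C| + 1) * lam ^ 7 * k := by
      have : C * (k * lam ^ 7) ≤ 10 * (|C| + 1) * (k * lam ^ 7) :=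
        mul_le_mul_of_nonneg_right (by linarith) (by positivity)
      nlinarith
    calc C * k * lam ^ 7 ≤ 10 * (|C| + 1) * lam ^ 7 * k := h2
      _ ≤ k * η * k := h1
      _ = η * (k : ℝ) ^ 2 := by ring
  have hbig2 : lam ≤ Real.log y := by
    refine le_trans ?_ h.hη_hi
    have h1 := mul_le_mul_of_nonneg_right h.hη_lo hkpos.le
    have h2 : lam ≤ 10 * (|C| + 1) * lam ^ 7 * k := by
      have h3 : lam ≤ lam ^ 7 := by
        calc lam = lam ^ 1 := (pow_one _).symm
          _ ≤ _ := pow_le_pow_right₀ (by linarith) (by norm_num)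
      have h4 : (1 : ℝ) ≤ 10 * (|C| + 1) * k := by nlinarith
      calc lam ≤ lam ^ 7 := h3
        _ = 1 * lam ^ 7 := (one_mul _).symm
        _ ≤ 10 * (|C| + 1) * k * lam ^ 7 := mul_le_mul_of_nonneg_right h4 (by positivity)
        _ = _ := by ring
    calc lam ≤ 10 * (|C| + 1) * lam ^ 7 * k := h2
      _ ≤ k * η * k := h1
      _ = η * (k : ℝ) ^ 2 := by ring
  have hyC : C ≤ y := by
    have h1 : Real.log y ≤ y - 1 := Real.log_le_sub_one_of_pos hypos
    linarith
  have hLk : L ^ (9 / 20 : ℝ) ≤ k := h.hk_lo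
  have hL1 : 1 ≤ L := by linarith
  have hLp : ∀ a : ℝ, 0 < L ^ a := fun a => Real.rpow_pos_of_pos hLpos a
  have hlogy11 : Real.log y ≤ L ^ (11 / 20 : ℝ) := by
    rw [hlogy, div_le_iff₀ (by positivity)]
    calc L = L ^ (11 / 20 : ℝ) * L ^ (9 / 20 : ℝ) := by
          rw [← Real.rpow_add hLpos]; norm_num
      _ ≤ L ^ (11 / 20 : ℝ) * (k + 5 / 8) :=
          mul_le_mul_of_nonneg_left (by linarith) (hLp _).le
  have hη0 : 0 < η := by
    by_contra hneg
    have h1 : k * η ≤ 0 := mul_nonpos_of_nonneg_of_nonpos hkpos.le (not_lt.1 hneg)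
    have h2 : 0 < 10 * (|C| + 1) * lam ^ 7 := by positivity
    linarith [h.hη_lo]
  have hkL : (k : ℝ) + 1 ≤ L := by
    have := h.hk_hi
    nlinarith
  refine { hL := h.hL
           logL := by linarith
           one_le_logL := by linarith
           Lbig := by linarith
           one_le_L := hL1
           Nbig := by linarith
           one_le_N := Nat.one_le_iff_ne_zero.2 hN0
           kbig := hkC
           one_le_k := by
             have : (1 : ℝ) ≤ k := by linarith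
             exact_mod_cast this
           ypos := hypos
           ybig := hyC
           logy := hlogy
           logy_big := hbig
           logy_le := hlogy11.trans (Real.rpow_le_rpow_of_exponent_le hL1 (by norm_num))
           η_pos := hη0
           η_hi := ?_
           η_lo := ?_
           kη := ?_
           ηk := h.hη_hi
           k_hi := h.hk_hi
           k_lo := h.hk_lo
           one_le_D := one_le_pow₀ (by linarith)
           logD := ?_ }
  · have h1 : η * (L ^ (9 / 20 : ℝ)) ^ 2 ≤ L ^ (11 / 20 : ℝ) := by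
      refine le_trans (mul_le_mul_of_nonneg_left ?_ hη0.le) (h.hη_hi.trans hlogy11)
      exact pow_le_pow_left₀ (hLp _).le hLk 2
    have e : (L ^ (9 / 20 : ℝ)) ^ 2 = L ^ (9 / 10 : ℝ) := by
      rw [← Real.rpow_natCast, ← Real.rpow_mul hL0]; norm_num
    rw [e] at h1
    have h2 : η ≤ L ^ (-(7 / 20) : ℝ) := by
      have e2 : L ^ (-(7 / 20) : ℝ) = L ^ (11 / 20 : ℝ) / L ^ (9 / 10 : ℝ) := by
        rw [← Real.rpow_sub hLpos]; norm_num
      rw [e2, le_div_iff₀ (hLp _)]
      exact h1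
    exact h2.trans (Real.rpow_le_rpow_of_exponent_le hL1 (by norm_num))
  · have h1 : (k : ℝ) ≤ L ^ (1 / 2 : ℝ) := by
      rw [← Real.sqrt_eq_rpow]
      exact Real.le_sqrt_of_sq_le h.hk_hi
    have h2 : 1 ≤ k * η := by
      refine le_trans ?_ h.hη_lo
      nlinarith
    rw [Real.rpow_neg hL0, inv_le_iff_one_le_mul₀ (hLp _)]
    calc (1 : ℝ) ≤ k * η := h2
      _ ≤ L ^ (1 / 2 : ℝ) * η := mul_le_mul_of_nonneg_right h1 hη0.le
      _ = η * L ^ (1 / 2 : ℝ) := mul_comm _ _
  · refine le_trans ?_ h.hη_lo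
    exact mul_le_mul_of_nonneg_right (by linarith) (by positivity)
  · have hK0 : ((K0 L : ℕ) : ℝ) ≤ 60 * lam + 1 := by
      unfold K0
      exact (Nat.ceil_lt_add_one (by positivity)).le
    have h1 : Real.log (3 * DD k L) = Real.log 3 + (K0 L : ℝ) * Real.log ((k : ℝ) + 1) := by
      unfold DD
      rw [Real.log_mul (by norm_num) (by positivity), Real.log_pow]
    have h2 : Real.log ((k : ℝ) + 1) ≤ lam := Real.log_le_log (by positivity) hkL
    have h2' : 0 ≤ Real.log ((k : ℝ) + 1) := Real.log_nonneg (by linarith)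
    have h3 : Real.log 3 ≤ 2 := by
      have := Real.log_le_sub_one_of_pos (show (0 : ℝ) < 3 by norm_num)
      linarith
    have h4 : (K0 L : ℝ) * Real.log ((k : ℝ) + 1) ≤ (60 * lam + 1) * lam :=
      mul_le_mul hK0 h2 h2' (by positivity)
    rw [h1]
    nlinarith

theorem reg_facts (C : ℝ) : ∃ A : ℝ, ∀ (N k : ℕ) (L y η : ℝ), Reg A N k L y η → RegF C N k L y η := by
  obtain ⟨A, -, h⟩ := reg_facts' C
  exact ⟨A, h⟩

/-- `η ≤ 1 / C`, and everything polynomial in `L` is small against `y`. -/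
theorem η_small (C : ℝ) : ∃ C0 : ℝ, ∀ (N k : ℕ) (L y η : ℝ), RegF C0 N k L y η → C * η ≤ 1 := by
  refine ⟨|C| ^ 3 + 1, fun N k L y η h => ?_⟩
  have hC0 := abs_nonneg C
  have hL1 := h.one_le_L
  have hLpos : 0 < L := by linarith
  have h1 : |C| ≤ L ^ (1 / 3 : ℝ) := by
    have h2 : |C| ^ 3 ≤ L := by linarith [h.Lbig]
    have h3 := Real.rpow_le_rpow (by positivity) h2 (show (0 : ℝ) ≤ 1 / 3 by norm_num)
    have e : (|C| ^ 3) ^ (1 / 3 : ℝ) = |C| := by
      rw [← Real.rpow_natCast, ← Real.rpow_mul hC0]; norm_num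
    rwa [e] at h3
  have hp : 0 < L ^ (1 / 3 : ℝ) := Real.rpow_pos_of_pos hLpos _
  have h2 : η ≤ (L ^ (1 / 3 : ℝ))⁻¹ := by
    rw [← Real.rpow_neg hLpos.le]; exact h.η_hi
  calc C * η ≤ |C| * η := mul_le_mul_of_nonneg_right (le_abs_self C) h.η_pos.le
    _ ≤ L ^ (1 / 3 : ℝ) * (L ^ (1 / 3 : ℝ))⁻¹ := mul_le_mul h1 h2 h.η_pos.le hp.le
    _ = 1 := mul_inv_cancel₀ hp.ne'

theorem L_pow_le_y (C ε : ℝ) (hε : 0 < ε) : ∃ C0 : ℝ, ∀ (N k : ℕ) (L y η : ℝ), RegF C0 N k L y η →
    C * L ^ C ≤ y ^ ε := by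
  refine ⟨2 * |C| / ε + 1, fun N k L y η h => ?_⟩
  have hC0 := abs_nonneg C
  have hL1 := h.one_le_L
  have hLpos : 0 < L := by linarith
  have hlam := h.one_le_logL
  have hk : (1 : ℝ) ≤ k := by exact_mod_cast h.one_le_k
  have hq : 0 ≤ 2 * |C| / ε := by positivity
  rw [Real.rpow_def_of_pos hLpos, Real.rpow_def_of_pos h.ypos]
  have h1 : C ≤ Real.exp |C| := by
    have := Real.add_one_le_exp |C|
    linarith [le_abs_self C]
  have h2 : Real.exp (Real.log L * C) ≤ Real.exp (Real.log L * |C|) :=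
    Real.exp_le_exp.2 (mul_le_mul_of_nonneg_left (le_abs_self C) (by linarith))
  have h3 : Real.log L ≤ Real.log L ^ 7 := by
    calc Real.log L = Real.log L ^ 1 := (pow_one _).symm
      _ ≤ _ := pow_le_pow_right₀ hlam (by norm_num)
  have h4 : (2 * |C| / ε + 1) * Real.log L ≤ Real.log y := by
    refine le_trans ?_ h.logy_big
    calc (2 * |C| / ε + 1) * Real.log L = (2 * |C| / ε + 1) * 1 * Real.log L := by ring
      _ ≤ (2 * |C| / ε + 1) * k * Real.log L ^ 7 :=
        mul_le_mul (mul_le_mul_of_nonneg_left hk (by positivity)) h3 (by linarith) (by positivity)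
  calc C * Real.exp (Real.log L * C) ≤ Real.exp |C| * Real.exp (Real.log L * |C|) :=
        mul_le_mul h1 h2 (Real.exp_pos _).le (Real.exp_pos _).le
    _ = Real.exp (|C| + Real.log L * |C|) := by rw [Real.exp_add]
    _ ≤ Real.exp (Real.log y * ε) := by
        apply Real.exp_le_exp.2
        have h5 := mul_le_mul_of_nonneg_right h4 hε.le
        have e : (2 * |C| / ε + 1) * Real.log L * ε = 2 * |C| * Real.log L + Real.log L * ε := by
          field_simp
        rw [e] at h5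
        nlinarith

/-- `exp (C k (log L)^3)` is small against every power of `y`. -/
theorem exp_k_le_y (C ε : ℝ) (hε : 0 < ε) : ∃ C0 : ℝ, ∀ (N k : ℕ) (L y η : ℝ), RegF C0 N k L y η →
    Real.exp (C * k * Real.log L ^ 3) ≤ y ^ ε := by
  refine ⟨|C| / ε, fun N k L y η h => ?_⟩
  have hlam := h.one_le_logL
  rw [Real.rpow_def_of_pos h.ypos]
  apply Real.exp_le_exp.2
  have h1 := mul_le_mul_of_nonneg_right h.logy_big hε.le
  refine le_trans ?_ h1
  have e : |C| / ε * k * Real.log L ^ 7 * ε = |C| * k * Real.log L ^ 7 := by field_simp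
  rw [e]
  have h3 : Real.log L ^ 3 ≤ Real.log L ^ 7 := pow_le_pow_right₀ hlam (by norm_num)
  have hk : (0 : ℝ) ≤ k := by positivity
  have hC0 := abs_nonneg C
  exact mul_le_mul (mul_le_mul_of_nonneg_right (le_abs_self C) hk) h3 (by positivity) (by positivity)

/-- `N = y ^ (k + 5/8)`. -/
theorem N_eq (N k : ℕ) (L y η C : ℝ) (h : RegF C N k L y η) : (N : ℝ) = y ^ ((k : ℝ) + 5 / 8) := by
  have hN : (0 : ℝ) < N := by exact_mod_cast h.one_le_N
  rw [Real.rpow_def_of_pos h.ypos, h.logy, div_mul_cancel₀ _ (by positivity), h.hL, Real.exp_log hN]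

/-- a fixed power of `y` is small against `N` -/
theorem y_pow_le_N (C : ℝ) : ∃ C0 : ℝ, ∀ (N k : ℕ) (L y η : ℝ), RegF C0 N k L y η →
    y ^ C ≤ N := by
  refine ⟨|C|, fun N k L y η h => ?_⟩
  rw [N_eq N k L y η |C| h, Real.rpow_def_of_pos h.ypos, Real.rpow_def_of_pos h.ypos]
  apply Real.exp_le_exp.2
  have h1 : 0 ≤ Real.log y := by
    have hL := h.one_le_L
    rw [h.logy]
    positivity
  have h2 : C ≤ (k : ℝ) + 5 / 8 := by linarith [h.kbig, le_abs_self C]
  exact mul_le_mul_of_nonneg_left h2 h1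

end MP14ee70.TY
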