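import Mathlib
import Pool.Agent.Lib.MP_14ee70_nt.TY.F.Reg
import Pool.Agent.Lib.MP_14ee70_nt.TY.M.Omega

/-!
# Project TY, file F/Mu: `M` is almost all of `(y/2, y]`

`#UU y = ⌊y⌋ - ⌊y/2⌋ ∈ [y/2 - 1, y/2 + 1]`; the elements of `UU y` which are not in `MM y (K0 L)` have
`Ω > K0 L ≥ 60 log L`: at most `y / L^10` (`omega_count` with `Z = L`, `z = y`, `log y ≤ L`).
`mu_le`: `|E_M f - E_U f| ≤ 2 #(U \ M) / #U ≤ 2 (y / L^10) / (y/2 - 1) ≤ 6 / L^10` for `|f| ≤ 1`.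
-/

namespace MP14ee70.TY

open Finset

theorem card_UU (X : ℝ) (hX : 1 ≤ X) :
    X / 2 - 1 ≤ ((UU X).card : ℝ) ∧ ((UU X).card : ℝ) ≤ X / 2 + 1 := by
  have h0 : (0 : ℝ) ≤ X := by linarith
  have h1 : (⌊X⌋₊ : ℝ) ≤ X := Nat.floor_le h0
  have h2 : X < (⌊X⌋₊ : ℝ) + 1 := Nat.lt_floor_add_one X
  have h3 : (⌊X / 2⌋₊ : ℝ) ≤ X / 2 := Nat.floor_le (by linarith)
  have h4 : X / 2 < (⌊X / 2⌋₊ : ℝ) + 1 := Nat.lt_floor_add_one (X / 2)
  have h5 : ⌊X / 2⌋₊ ≤ ⌊X⌋₊ := Nat.floor_le_floor (by linarith)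
  rw [UU, Nat.card_Ioc, Nat.cast_sub h5]
  constructor <;> linarith

theorem mem_MM {y : ℝ} {K m : ℕ} (hy : 0 ≤ y) (h : m ∈ MM y K) :
    y / 2 < m ∧ (m : ℝ) ≤ y ∧ ArithmeticFunction.cardFactors m ≤ K := by
  rw [MM, Finset.mem_filter, UU, Finset.mem_Ioc] at h
  exact ⟨(Nat.floor_lt (by linarith)).1 h.1.1, (Nat.le_floor_iff hy).1 h.1.2, h.2⟩

/-- the elements of `UU y` which are not in `MM` -/
theorem Mu_compl : ∃ C : ℝ, 100 ≤ C ∧ ∀ (N k : ℕ) (L y η : ℝ), RegF C N k L y η →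
    (((UU y).filter fun m => ¬ ArithmeticFunction.cardFactors m ≤ K0 L).card : ℝ) ≤
      y / L ^ 10 := by
  obtain ⟨Z0, hZ0⟩ := omega_count
  refine ⟨max 100 Z0, le_max_left _ _, ?_⟩
  intro N k L y η h
  have hL : Z0 ≤ L := (le_max_right _ _).trans h.Lbig
  have hy : (1 : ℝ) ≤ y := by
    have := (le_max_left (100 : ℝ) Z0).trans h.ybig
    linarith
  have hL0 : (0 : ℝ) ≤ L := by
    have := h.one_le_L
    linarith
  have hlog : Real.log y ≤ L := by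
    rw [h.logy]
    refine div_le_self hL0 ?_
    have h9 : (1 : ℝ) ≤ (k : ℝ) := by exact_mod_cast h.one_le_k
    linarith
  refine le_trans ?_ (hZ0 L y hL hy hlog)
  norm_cast
  refine Finset.card_le_card ?_
  intro m hm
  rw [Finset.mem_filter, UU, Finset.mem_Ioc] at hm
  rw [Finset.mem_filter, Finset.mem_Icc]
  refine ⟨⟨by omega, hm.1.2⟩, ?_⟩
  have h1 : K0 L < ArithmeticFunction.cardFactors m := not_le.1 hm.2
  calc 60 * Real.log L ≤ (K0 L : ℝ) := Nat.le_ceil _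
    _ < _ := by exact_mod_cast h1

theorem card_MM : ∃ C : ℝ, ∀ (N k : ℕ) (L y η : ℝ), RegF C N k L y η →
    y / 3 ≤ ((MM y (K0 L)).card : ℝ) := by
  obtain ⟨C, hC, h⟩ := Mu_compl
  refine ⟨C, fun N k L y η hR => ?_⟩
  have h1 := h N k L y η hR
  have hy : (100 : ℝ) ≤ y := hC.trans hR.ybig
  have hL : (100 : ℝ) ≤ L := hC.trans hR.Lbig
  have h2 := (card_UU y (by linarith)).1
  have h3 : (((UU y).filter fun m => ArithmeticFunction.cardFactors m ≤ K0 L).card : ℝ) +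
      (((UU y).filter fun m => ¬ ArithmeticFunction.cardFactors m ≤ K0 L).card : ℝ) =
      ((UU y).card : ℝ) := by
    exact_mod_cast Finset.card_filter_add_card_filter_not (s := UU y)
      (fun m => ArithmeticFunction.cardFactors m ≤ K0 L)
  have h4 : y / L ^ 10 ≤ y / 100 := by
    refine div_le_div_of_nonneg_left (by linarith) (by norm_num) ?_
    calc (100 : ℝ) ≤ L := hL
      _ ≤ L ^ 10 := le_self_pow₀ (by linarith) (by norm_num)
  rw [MM]
  linarith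

theorem Mu_norm_ph (τ x : ℝ) : ‖ph τ x‖ = 1 := by
  rw [ph]
  exact Complex.norm_exp_ofReal_mul_I _

theorem Mu_norm_sum (τ : ℝ) (S : Finset ℕ) : ‖∑ m ∈ S, ph τ m‖ ≤ (S.card : ℝ) := by
  refine (norm_sum_le _ _).trans ?_
  rw [Finset.sum_congr rfl (fun (m : ℕ) _ => Mu_norm_ph τ (m : ℝ)), Finset.sum_const, nsmul_eq_mul,
    mul_one]

theorem mu_le : ∃ C : ℝ, ∀ (N k : ℕ) (L y η : ℝ), RegF C N k L y η → ∀ τ : ℝ,
    ‖mu y (K0 L) τ‖ ≤ ‖∑ m ∈ UU y, ph τ m‖ / (UU y).card + 6 / L ^ 10 := by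
  obtain ⟨C, hC, h⟩ := Mu_compl
  obtain ⟨C', h'⟩ := card_MM
  refine ⟨max C C', fun N k L y η hR τ => ?_⟩
  have hRC : RegF C N k L y η := hR.mono (le_max_left _ _)
  have hRC' : RegF C' N k L y η := hR.mono (le_max_right _ _)
  have h1 := h N k L y η hRC
  have h1' := h' N k L y η hRC'
  have hy : (100 : ℝ) ≤ y := hC.trans hRC.ybig
  have hL : (100 : ℝ) ≤ L := hC.trans hRC.Lbig
  have h2 := (card_UU y (by linarith)).1
  set P : ℕ → Prop := fun m => ArithmeticFunction.cardFactors m ≤ K0 L with hP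
  have h3 : (((UU y).filter P).card : ℝ) + (((UU y).filter fun m => ¬ P m).card : ℝ) =
      ((UU y).card : ℝ) := by
    exact_mod_cast Finset.card_filter_add_card_filter_not (s := UU y) P
  have h4 : (∑ m ∈ (UU y).filter P, ph τ m) + (∑ m ∈ (UU y).filter fun m => ¬ P m, ph τ m) =
      ∑ m ∈ UU y, ph τ m := Finset.sum_filter_add_sum_filter_not (UU y) P _
  have hMM : MM y (K0 L) = (UU y).filter P := rfl
  rw [mu]
  rw [hMM] at h1' ⊢
  have n1 := Mu_norm_sum τ ((UU y).filter P)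
  have n2 := Mu_norm_sum τ ((UU y).filter fun m => ¬ P m)
  set a : ℝ := (((UU y).filter P).card : ℝ) with ha
  set c : ℝ := (((UU y).filter fun m => ¬ P m).card : ℝ) with hc
  set u : ℝ := ((UU y).card : ℝ) with hu
  set SM := ∑ m ∈ (UU y).filter P, ph τ m with hSM
  set SC := ∑ m ∈ (UU y).filter fun m => ¬ P m, ph τ m with hSC
  have ha0 : 0 < a := by linarith
  have hc0 : 0 ≤ c := Nat.cast_nonneg _
  have hu0 : 0 < u := by linarith
  have hca : ((((UU y).filter P).card : ℕ) : ℂ) = ((a : ℝ) : ℂ) := by rw [ha]; push_cast; rfl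
  rw [hca, ← h4]
  have haC : ((a : ℝ) : ℂ) ≠ 0 := by exact_mod_cast ha0.ne'
  have huC : ((u : ℝ) : ℂ) ≠ 0 := by exact_mod_cast hu0.ne'
  have e1 : SM / (a : ℂ) = (SM + SC) / (u : ℂ) + (SM * c - SC * a) / ((a : ℂ) * u) := by
    rw [← h3]
    have : ((a + c : ℝ) : ℂ) ≠ 0 := by rw [h3]; exact huC
    push_cast at this ⊢
    field_simp
    ring
  have e2 : ‖(SM * c - SC * a) / ((a : ℂ) * u)‖ ≤ 2 * c / u := by
    rw [norm_div, norm_mul, Complex.norm_real, Complex.norm_real, Real.norm_of_nonneg ha0.le,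
      Real.norm_of_nonneg hu0.le, div_le_div_iff₀ (by positivity) hu0]
    have e3 : ‖SM * (c : ℂ) - SC * (a : ℂ)‖ ≤ 2 * c * a := by
      refine (norm_sub_le _ _).trans ?_
      rw [norm_mul, norm_mul, Complex.norm_real, Complex.norm_real, Real.norm_of_nonneg ha0.le,
        Real.norm_of_nonneg hc0]
      nlinarith
    nlinarith
  have e4 : 2 * c / u ≤ 6 / L ^ 10 := by
    have hL10 : (0 : ℝ) < L ^ 10 := by positivity
    rw [div_le_div_iff₀ hu0 hL10]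
    have h5 : c * L ^ 10 ≤ y := by
      rw [← le_div_iff₀ hL10]
      exact h1
    nlinarith
  rw [e1]
  refine (norm_add_le _ _).trans ?_
  refine add_le_add ?_ (e2.trans e4)
  rw [norm_div, Complex.norm_real, Real.norm_of_nonneg hu0.le]

theorem norm_mu_le_one (y : ℝ) (K : ℕ) (τ : ℝ) : ‖mu y K τ‖ ≤ 1 := by
  rw [mu, norm_div, Complex.norm_natCast]
  exact div_le_one_of_le₀ (Mu_norm_sum τ _) (Nat.cast_nonneg _)

end MP14ee70.TY
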