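import Mathlib
import Pool.Agent.Lib.MP_14ee70_nt.TY.F.Mu
import Pool.Agent.Lib.MP_14ee70_nt.TY.N.Big
import Pool.Agent.Lib.MP_14ee70_nt.TY.N.Small

/-!
# Project TY, file F/F1: `|mu τ| ≤ 1 - 2 η` away from `0`

Proof.  Case `|τ| ≤ y^(1/2)`: `mu_le`, `small_tau1`, `#UU y ≥ y/2 - 1`:
`|mu| ≤ sqrt (1 - 0.039 τ^2/(1+τ^2)) (1 + 3/y) + C y^(-1/2) + 6 L^(-10)`, `sqrt (1 - x) ≤ 1 - x/2`, and
`τ^2/(1+τ^2) ≥ 324 η / (1 + 324 η)` with `324 η ≤ 1/2` (`η_small`): `0.0195 * 324 η / 1.5 ≥ 4 η`; the errors are `≤ η`, as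
`η ≥ L^(-1/2)` and `y^(1/2) ≥ C L` (`L_pow_le_y`).
Case `y^(1/2) ≤ |τ| ≤ N^3`: `vin` with `X = y`, `ρ1 = 4 k` (`N^3 = y^(3(k+5/8)) ≤ y^(4k)`, `k ≥ 2`), the condition is
`4 k log (4k + 2) ≤ c log y`, true by `logy_big` and `k ≤ L`.  So `|mu| ≤ exp (-c log y / (16 k^2)) + 6 L^(-10)`, and for
`η k^2 ≤ c0 log y`, `c0 = c/64`: `c log y/(16 k^2) ≥ 4 η`, `exp (-4η) ≤ 1 - 4η + 8η^2 ≤ 1 - 3 η`.
-/

namespace MP14ee70.TY

open Finset

private theorem F1_err {C₁ : ℝ} (hC₁ : 0 < C₁) {y L η : ℝ} (hy4 : 4 ≤ y) (hL6 : 6 ≤ L)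
    (hη : L ^ (-(1 / 2) : ℝ) ≤ η)
    (hpow : (4 + 8 * C₁ + 1) * L ^ (4 + 8 * C₁ + 1) ≤ y ^ (1 / 2 : ℝ)) :
    4 / y + 8 * C₁ * (y ^ (1 / 2 : ℝ))⁻¹ ≤ η ∧ 6 / L ^ 10 ≤ η := by
  have hL0 : 0 < L := by linarith
  have hL1 : 1 ≤ L := by linarith
  have hy0 : 0 < y := by linarith
  have hyh : 0 < y ^ (1 / 2 : ℝ) := Real.rpow_pos_of_pos hy0 _
  have hLh : 0 < L ^ (1 / 2 : ℝ) := Real.rpow_pos_of_pos hL0 _
  have hneg : L ^ (-(1 / 2) : ℝ) = (L ^ (1 / 2 : ℝ))⁻¹ := Real.rpow_neg hL0.le _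
  have hy1 : y = y ^ (1 / 2 : ℝ) * y ^ (1 / 2 : ℝ) := by
    rw [← Real.rpow_add hy0]
    norm_num
  have hyh1 : 1 ≤ y ^ (1 / 2 : ℝ) := Real.one_le_rpow (by linarith) (by norm_num)
  constructor
  · refine le_trans ?_ hη
    rw [hneg]
    have h1 : 4 / y ≤ 4 * (y ^ (1 / 2 : ℝ))⁻¹ := by
      rw [div_eq_mul_inv]
      refine mul_le_mul_of_nonneg_left ?_ (by norm_num)
      refine inv_anti₀ hyh ?_
      conv_rhs => rw [hy1]
      nlinarith
    have h2 : (4 + 8 * C₁) * (y ^ (1 / 2 : ℝ))⁻¹ ≤ (L ^ (1 / 2 : ℝ))⁻¹ := by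
      rw [← div_eq_mul_inv, div_le_iff₀ hyh, ← div_eq_inv_mul, le_div_iff₀ hLh]
      have h3 : L ^ (1 / 2 : ℝ) ≤ L ^ (4 + 8 * C₁ + 1) :=
        Real.rpow_le_rpow_of_exponent_le hL1 (by linarith)
      have h4 : 0 < L ^ (4 + 8 * C₁ + 1) := Real.rpow_pos_of_pos hL0 _
      nlinarith
    calc 4 / y + 8 * C₁ * (y ^ (1 / 2 : ℝ))⁻¹
        ≤ 4 * (y ^ (1 / 2 : ℝ))⁻¹ + 8 * C₁ * (y ^ (1 / 2 : ℝ))⁻¹ := by linarith
      _ = (4 + 8 * C₁) * (y ^ (1 / 2 : ℝ))⁻¹ := by ring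
      _ ≤ _ := h2
  · refine le_trans ?_ hη
    rw [hneg]
    have h1 : L ^ (1 / 2 : ℝ) ≤ L := by
      conv_rhs => rw [← Real.rpow_one L]
      exact Real.rpow_le_rpow_of_exponent_le hL1 (by norm_num)
    have h2 : L⁻¹ ≤ (L ^ (1 / 2 : ℝ))⁻¹ := inv_anti₀ hLh h1
    refine le_trans ?_ h2
    rw [div_le_iff₀ (by positivity)]
    have h3 : L⁻¹ * L ^ 10 = L ^ 9 := by
      rw [pow_succ' L 9, inv_mul_cancel_left₀ hL0.ne']
    rw [h3]
    calc (6 : ℝ) ≤ L := hL6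
      _ = L ^ 1 := (pow_one L).symm
      _ ≤ L ^ 9 := pow_le_pow_right₀ hL1 (by norm_num)

private theorem F1_sqrt {τ η : ℝ} (hη0 : 0 < η) (hη : 648 * η ≤ 1) (hτ : 18 * Real.sqrt η ≤ |τ|) :
    Real.sqrt (1 - 0.039 * (τ ^ 2 / (1 + τ ^ 2))) ≤ 1 - 4 * η := by
  have h1 : 324 * η ≤ τ ^ 2 := by
    have h2 : (18 * Real.sqrt η) ^ 2 ≤ |τ| ^ 2 :=
      pow_le_pow_left₀ (by positivity) hτ 2
    rw [mul_pow, Real.sq_sqrt hη0.le, sq_abs] at h2
    linarith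
  have hpos : 0 < 1 + τ ^ 2 := by positivity
  have h3 : 216 * η ≤ τ ^ 2 / (1 + τ ^ 2) := by
    rw [le_div_iff₀ hpos]
    nlinarith [mul_nonneg hη0.le (sub_nonneg.2 h1)]
  have h4 : τ ^ 2 / (1 + τ ^ 2) ≤ 1 := by
    rw [div_le_one hpos]
    linarith
  rw [Real.sqrt_le_left (by linarith)]
  nlinarith [sq_nonneg η]

theorem F1 : ∃ c0 : ℝ, 0 < c0 ∧ ∃ C : ℝ, ∀ (N k : ℕ) (L y η : ℝ), RegF C N k L y η →
    η * (k : ℝ) ^ 2 ≤ c0 * Real.log y → ∀ τ : ℝ, 18 * Real.sqrt η ≤ |τ| → |τ| ≤ (N : ℝ) ^ 3 →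
    ‖mu y (K0 L) τ‖ ≤ 1 - 2 * η := by
  obtain ⟨C₁, hC₁, hst⟩ := small_tau1
  obtain ⟨c, hc, C₂, hvin⟩ := vin
  obtain ⟨C₃, hmu⟩ := mu_le
  obtain ⟨C₄, hη4⟩ := η_small 648
  obtain ⟨C₅, hL5⟩ := L_pow_le_y (4 + 8 * C₁ + 1) (1 / 2) (by norm_num)
  refine ⟨c / 64, by positivity, |C₂| + |C₃| + |C₄| + |C₅| + 12 / c + 6, ?_⟩
  intro N k L y η hreg hk0 τ hτ1 hτ2
  have a2 := abs_nonneg C₂
  have a3 := abs_nonneg C₃
  have a4 := abs_nonneg C₄
  have a5 := abs_nonneg C₅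
  have b2 := le_abs_self C₂
  have b3 := le_abs_self C₃
  have b4 := le_abs_self C₄
  have b5 := le_abs_self C₅
  have a6 : 0 < 12 / c := by positivity
  have hr3 : RegF C₃ N k L y η := hreg.mono (by linarith)
  have hr4 : RegF C₄ N k L y η := hreg.mono (by linarith)
  have hr5 : RegF C₅ N k L y η := hreg.mono (by linarith)
  have hL6 : 6 ≤ L := by
    have := hreg.Lbig
    linarith
  have hy6 : 6 ≤ y := by
    have := hreg.ybig
    linarith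
  have hη0 := hreg.η_pos
  have hη1 := hη4 N k L y η hr4
  obtain ⟨he1, he2⟩ := F1_err hC₁ (by linarith) hL6 hreg.η_lo (hL5 N k L y η hr5)
  have hmu' := hmu N k L y η hr3 τ
  obtain ⟨hU1, hU2⟩ := card_UU y (by linarith)
  have hU0 : 0 < ((UU y).card : ℝ) := by linarith
  rcases le_total (|τ|) (y ^ (1 / 2 : ℝ)) with hcase | hcase
  · have h1 := hst y τ (by linarith)
    have h2 := F1_sqrt hη0 hη1 hτ1
    have hyh1 : 1 ≤ y ^ (1 / 2 : ℝ) := Real.one_le_rpow (by linarith) (by norm_num)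
    have hyh : 0 < y ^ (1 / 2 : ℝ) := by linarith
    have hy1 : y = y ^ (1 / 2 : ℝ) * y ^ (1 / 2 : ℝ) := by
      rw [← Real.rpow_add (by linarith : 0 < y)]
      norm_num
    have h3 : ‖∑ m ∈ UU y, ph τ m‖ / ((UU y).card : ℝ) ≤
        1 - 4 * η + (4 / y + 8 * C₁ * (y ^ (1 / 2 : ℝ))⁻¹) := by
      rw [div_le_iff₀ hU0]
      have h4 : ‖∑ m ∈ UU y, ph τ m‖ ≤ y / 2 * (1 - 4 * η) + C₁ * (2 * y ^ (1 / 2 : ℝ)) := by
        refine h1.trans (add_le_add ?_ ?_)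
        · exact mul_le_mul_of_nonneg_left h2 (by linarith)
        · exact mul_le_mul_of_nonneg_left (by linarith) hC₁.le
      have h5 : 0 ≤ 1 - 4 * η := by linarith
      have h6 : 4 / y * (y / 4) = 1 := by field_simp
      have h7 : (y ^ (1 / 2 : ℝ))⁻¹ * y = y ^ (1 / 2 : ℝ) := by
        have h8 : (y ^ (1 / 2 : ℝ))⁻¹ * (y ^ (1 / 2 : ℝ) * y ^ (1 / 2 : ℝ)) = y ^ (1 / 2 : ℝ) :=
          inv_mul_cancel_left₀ hyh.ne' _
        rwa [← hy1] at h8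
      have hUy : y / 4 ≤ ((UU y).card : ℝ) := by linarith
      have h8 : 1 ≤ 4 / y * ((UU y).card : ℝ) := by
        rw [← h6]
        exact mul_le_mul_of_nonneg_left hUy (by positivity)
      have h9 : C₁ * (2 * y ^ (1 / 2 : ℝ)) ≤
          8 * C₁ * (y ^ (1 / 2 : ℝ))⁻¹ * ((UU y).card : ℝ) := by
        calc C₁ * (2 * y ^ (1 / 2 : ℝ)) = 8 * C₁ * (y ^ (1 / 2 : ℝ))⁻¹ * (y / 4) := by
              calc C₁ * (2 * y ^ (1 / 2 : ℝ)) = C₁ * (2 * ((y ^ (1 / 2 : ℝ))⁻¹ * y)) := by rw [h7]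
                _ = _ := by ring
          _ ≤ _ := mul_le_mul_of_nonneg_left hUy (by positivity)
      have h10 : y / 2 * (1 - 4 * η) ≤ (1 - 4 * η) * ((UU y).card : ℝ) + 1 := by
        have h11 : y / 2 * (1 - 4 * η) ≤ (((UU y).card : ℝ) + 1) * (1 - 4 * η) :=
          mul_le_mul_of_nonneg_right (by linarith) h5
        have h12 : (((UU y).card : ℝ) + 1) * (1 - 4 * η) =
            (1 - 4 * η) * ((UU y).card : ℝ) + (1 - 4 * η) := by ring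
        linarith
      calc ‖∑ m ∈ UU y, ph τ m‖ ≤ y / 2 * (1 - 4 * η) + C₁ * (2 * y ^ (1 / 2 : ℝ)) := h4
        _ ≤ (1 - 4 * η) * ((UU y).card : ℝ) + 4 / y * ((UU y).card : ℝ) +
            8 * C₁ * (y ^ (1 / 2 : ℝ))⁻¹ * ((UU y).card : ℝ) := by linarith
        _ = _ := by ring
    linarith
  · have hk6 : (6 : ℝ) ≤ k := by
      have := hreg.kbig
      linarith
    have hk1 : (1 : ℝ) ≤ k := by linarith
    have hlogL := hreg.one_le_logL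
    have hcond : 4 * (k : ℝ) * Real.log (4 * (k : ℝ) + 2) ≤ c * Real.log y := by
      have h1 := hreg.logy_big
      have hkL : (k : ℝ) ≤ L := by
        have := hreg.k_hi
        nlinarith
      have h2 : Real.log (4 * (k : ℝ) + 2) ≤ 3 * Real.log L ^ 7 := by
        have h3 : Real.log (4 * (k : ℝ) + 2) ≤ Real.log (L ^ 2) := by
          refine Real.log_le_log (by positivity) ?_
          nlinarith
        have h4 : Real.log (L ^ 2) = 2 * Real.log L := by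
          rw [Real.log_pow]
          norm_num
        have h5 : Real.log L ≤ Real.log L ^ 7 := by
          conv_lhs => rw [← pow_one (Real.log L)]
          exact pow_le_pow_right₀ hlogL (by norm_num)
        rw [h4] at h3
        have h6 : 0 < Real.log L := by linarith
        linarith
      have h7 : 12 / c * k * Real.log L ^ 7 ≤ Real.log y := by
        refine le_trans ?_ h1
        have h8 : 12 / c ≤ |C₂| + |C₃| + |C₄| + |C₅| + 12 / c + 6 := by linarith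
        have h9 : 0 ≤ (k : ℝ) * Real.log L ^ 7 := by positivity
        nlinarith
      have h10 : c * (12 / c * k * Real.log L ^ 7) ≤ c * Real.log y :=
        mul_le_mul_of_nonneg_left h7 hc.le
      have h11 : c * (12 / c * k * Real.log L ^ 7) = 12 * k * Real.log L ^ 7 := by
        field_simp
      have h12 : 4 * (k : ℝ) * Real.log (4 * (k : ℝ) + 2) ≤ 4 * (k : ℝ) * (3 * Real.log L ^ 7) :=
        mul_le_mul_of_nonneg_left h2 (by positivity)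
      linarith
    have hτ3 : |τ| ≤ y ^ (4 * (k : ℝ)) := by
      refine hτ2.trans ?_
      have h1 := N_eq N k L y η _ hreg
      rw [h1, ← Real.rpow_natCast, ← Real.rpow_mul (by linarith : 0 ≤ y)]
      refine Real.rpow_le_rpow_of_exponent_le (by linarith) ?_
      push_cast
      linarith
    have h1 := hvin y τ (4 * (k : ℝ)) (by
      have := hreg.ybig
      linarith) (by linarith) hcond hcase hτ3
    have h2 : ‖∑ m ∈ UU y, ph τ m‖ / ((UU y).card : ℝ) ≤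
        Real.exp (-(c * Real.log y / (4 * (k : ℝ)) ^ 2)) := by
      rw [div_le_iff₀ hU0, mul_comm]
      exact h1
    have h3 : 4 * η ≤ c * Real.log y / (4 * (k : ℝ)) ^ 2 := by
      rw [le_div_iff₀ (by positivity)]
      nlinarith
    have h4 : Real.exp (-(c * Real.log y / (4 * (k : ℝ)) ^ 2)) ≤ 1 - 3 * η := by
      have h5 : Real.exp (-(c * Real.log y / (4 * (k : ℝ)) ^ 2)) ≤ Real.exp (-(4 * η)) :=
        Real.exp_le_exp.2 (by linarith)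
      refine h5.trans ?_
      rw [Real.exp_neg]
      have h6 : 1 + 4 * η ≤ Real.exp (4 * η) := by
        have := Real.add_one_le_exp (4 * η)
        linarith
      have h7 : (Real.exp (4 * η))⁻¹ ≤ (1 + 4 * η)⁻¹ := inv_anti₀ (by positivity) h6
      refine h7.trans ?_
      rw [inv_le_iff_one_le_mul₀ (by positivity)]
      nlinarith
    linarith

end MP14ee70.TY
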