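import Mathlib
import Pool.Agent.Lib.MP_14ee70_nt.TY.Defs2
import Pool.Agent.Lib.MP_14ee70_nt.TY.Four
import Pool.Agent.Lib.MP_14ee70_nt.TY.F.F1

/-!
# Project TY, file F/Nu: the characters of the steps

`r0 = r.valMinAbs`, `τ = tau r = 2π r0 / h`; `Q = h H`.
`nu_le_mu` : `ch (r * val (m, ρ)) = e (r0 (⌊H log m⌋ + ρ) / Q)`; the sum over the product set
`A = M × {0..R-1}` factors: `ν(r) = (E_m e (r0 ⌊H log m⌋ / Q)) (E_ρ e (r0 ρ / Q))`, the second factor has absolute value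
`≤ 1`, and `|e (r0 ⌊H log m⌋ / Q) - e (r0 H log m / Q)| ≤ 2π |r0| / Q = |τ| / H`, `e (r0 H log m / Q) = ph τ m`.
`nu_le_noise` : the second factor is at most `1/(2 ‖r/Q‖ R_n) ≤ 50/(2 η R_n) ≤ 1/40` (`norm_win_le_inv`).
`nu_high` : if `‖r/Q‖ ≤ η/50`: `|τ| = 2π H ‖r/Q‖ ≤ N^2 ≤ N^3` and `|ν| ≤ 1 - 2η + 2πη/50 ≤ 1 - η`; otherwise `≤ 1/40`.
`card_LowS` : `|r0| < 18 sqrt η h/(2π)`: at most `36 sqrt η h/(2π) + 1 ≤ L` residues (`η ≤ L^(-1/3)`).
`bad_facts` : `η/3 ≤ v ≤ 1/10`, `|ν(r)| ≥ e^(-v) > 1/40`, so `‖r/Q‖ ≤ η/50`, `|τ| ≤ N^2`, `|mu τ| ≥ e^(-v) - 2πη/50 ≥ e^(-2v)`.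
-/

namespace MP14ee70.TY

open Finset

theorem nu_pos (N : ℕ) (L : ℝ) [hQ : NeZero (QQ N L)] :
    0 < (hh L : ℝ) ∧ 0 < (HH N : ℝ) ∧ (QQ N L : ℝ) = hh L * HH N := by
  have h1 : QQ N L = hh L * HH N := rfl
  have h2 : hh L * HH N ≠ 0 := by
    rw [← h1]
    exact hQ.out
  have h3 : hh L ≠ 0 := left_ne_zero_of_mul h2
  have h4 : HH N ≠ 0 := right_ne_zero_of_mul h2
  refine ⟨by exact_mod_cast Nat.pos_of_ne_zero h3, by exact_mod_cast Nat.pos_of_ne_zero h4, ?_⟩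
  rw [h1]
  push_cast
  rfl

/-- `nrm r = |tau r| / (2 π H)`. -/
theorem nrm_eq_tau (N : ℕ) (L : ℝ) [NeZero (QQ N L)] (r : ZMod (QQ N L)) :
    nrm r = |tau N L r| / (2 * Real.pi * HH N) := by
  obtain ⟨h1, h2, h3⟩ := nu_pos N L
  have hpi := Real.pi_pos
  unfold nrm tau
  rw [h3, abs_div, abs_mul, abs_of_pos (by positivity : (0 : ℝ) < 2 * Real.pi), abs_of_pos h1]
  field_simp

/-- the sum over the step set factors -/
theorem nu_factor (N : ℕ) (L y η : ℝ) [NeZero (QQ N L)] (r : ZMod (QQ N L)) :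
    ∑ a ∈ AA L y η, ch (r * val N (QQ N L) a) =
      (∑ m ∈ MM y (K0 L), ch (r * ((⌊(HH N : ℝ) * Real.log m⌋ : ℤ) : ZMod (QQ N L)))) *
        ∑ x ∈ Finset.range (Rn η), ch (r * (x : ZMod (QQ N L))) := by
  rw [AA, Finset.sum_product, Finset.sum_mul]
  refine Finset.sum_congr rfl fun m _ => ?_
  rw [Finset.mul_sum]
  refine Finset.sum_congr rfl fun x _ => ?_
  rw [← ch_add, ← mul_add]
  congr 2
  unfold val
  push_cast
  rfl

theorem nu_norm (N : ℕ) (L y η : ℝ) [NeZero (QQ N L)] (r : ZMod (QQ N L)) :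
    ‖nu N L y η r‖ =
      ‖∑ m ∈ MM y (K0 L), ch (r * ((⌊(HH N : ℝ) * Real.log m⌋ : ℤ) : ZMod (QQ N L)))‖ /
        (MM y (K0 L)).card *
      (‖∑ x ∈ Finset.range (Rn η), ch (r * (x : ZMod (QQ N L)))‖ / (Rn η : ℝ)) := by
  have h1 : ((AA L y η).card : ℂ) = ((MM y (K0 L)).card : ℂ) * (Rn η : ℂ) := by
    rw [AA, Finset.card_product, Finset.card_range]
    push_cast
    rfl
  unfold nu
  rw [nu_factor, h1, norm_div, norm_mul, norm_mul, Complex.norm_natCast, Complex.norm_natCast]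
  exact mul_div_mul_comm _ _ _ _

theorem nu_term (N : ℕ) (L : ℝ) [NeZero (QQ N L)] (r : ZMod (QQ N L)) (m : ℕ) :
    ‖ph (tau N L r) m - ch (r * ((⌊(HH N : ℝ) * Real.log m⌋ : ℤ) : ZMod (QQ N L)))‖ ≤
      |tau N L r| / HH N := by
  obtain ⟨h1, h2, h3⟩ := nu_pos N L
  obtain ⟨j, hj⟩ : ∃ j : ℤ, j = ⌊(HH N : ℝ) * Real.log m⌋ := ⟨_, rfl⟩
  rw [← hj]
  have e1 : r * ((j : ℤ) : ZMod (QQ N L)) = ((r.valMinAbs * j : ℤ) : ZMod (QQ N L)) := by
    rw [Int.cast_mul, ZMod.coe_valMinAbs]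
  have e2 : ph (tau N L r) 1 = 1 := by
    unfold ph
    rw [Real.log_one, mul_zero, Complex.ofReal_zero, zero_mul, Complex.exp_zero]
  have h4 := norm_ph_sub_le (tau N L r) m 1 (((r.valMinAbs * j : ℤ) : ℝ) / (QQ N L : ℝ))
  rw [e2, one_mul, Real.log_one, mul_zero, sub_zero, ← ch_intCast, ← e1] at h4
  refine h4.trans ?_
  have e3 : tau N L r * Real.log m - 2 * Real.pi * (((r.valMinAbs * j : ℤ) : ℝ) / (QQ N L : ℝ)) =
      tau N L r * (((HH N : ℝ) * Real.log m - j) / HH N) := by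
    unfold tau
    rw [h3]
    push_cast
    field_simp
  rw [e3, abs_mul, abs_div, abs_of_pos h2, mul_div_assoc']
  refine div_le_div_of_nonneg_right ?_ h2.le
  refine mul_le_of_le_one_right (abs_nonneg _) ?_
  rw [abs_le]
  have h5 := Int.floor_le ((HH N : ℝ) * Real.log m)
  have h6 := Int.lt_floor_add_one ((HH N : ℝ) * Real.log m)
  rw [← hj] at h5 h6
  constructor <;> linarith

theorem nu_le_mu (N : ℕ) (L y η : ℝ) [NeZero (QQ N L)] (r : ZMod (QQ N L)) :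
    ‖nu N L y η r‖ ≤ ‖mu y (K0 L) (tau N L r)‖ + |tau N L r| / HH N := by
  obtain ⟨h1, h2, h3⟩ := nu_pos N L
  have hnn : 0 ≤ |tau N L r| / HH N := by positivity
  rw [nu_norm]
  have h4 : ‖∑ x ∈ Finset.range (Rn η), ch (r * (x : ZMod (QQ N L)))‖ / (Rn η : ℝ) ≤ 1 := by
    rcases Nat.eq_zero_or_pos (Rn η) with h0 | h0
    · rw [h0]
      simp
    · have h5 : (0 : ℝ) < Rn η := by exact_mod_cast h0
      rw [div_le_one h5]
      exact norm_win_le _ _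
  refine (mul_le_of_le_one_right (by positivity) h4).trans ?_
  rcases Nat.eq_zero_or_pos (MM y (K0 L)).card with h0 | h0
  · rw [h0, Nat.cast_zero, div_zero]
    exact add_nonneg (norm_nonneg _) hnn
  · have h5 : (0 : ℝ) < (MM y (K0 L)).card := by exact_mod_cast h0
    unfold mu
    rw [norm_div, Complex.norm_natCast, div_add' _ _ _ h5.ne']
    refine div_le_div_of_nonneg_right ?_ h5.le
    have h6 : ∑ m ∈ MM y (K0 L), ch (r * ((⌊(HH N : ℝ) * Real.log m⌋ : ℤ) : ZMod (QQ N L))) =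
        ∑ m ∈ MM y (K0 L), ph (tau N L r) m - ∑ m ∈ MM y (K0 L), (ph (tau N L r) m -
          ch (r * ((⌊(HH N : ℝ) * Real.log m⌋ : ℤ) : ZMod (QQ N L)))) := by
      rw [Finset.sum_sub_distrib, sub_sub_cancel]
    rw [h6]
    refine (norm_sub_le _ _).trans (add_le_add_right ?_ _)
    refine (norm_sum_le _ _).trans ?_
    refine (Finset.sum_le_card_nsmul _ _ _ fun m _ => nu_term N L r m).trans ?_
    rw [nsmul_eq_mul, mul_comm]

theorem nu_le_noise (N : ℕ) (L y η : ℝ) [NeZero (QQ N L)] (hη : 0 < η) (r : ZMod (QQ N L))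
    (hr : η / 50 < nrm r) : ‖nu N L y η r‖ ≤ 1 / 40 := by
  have hr0 : r ≠ 0 := by
    rintro rfl
    rw [nrm_zero] at hr
    linarith
  have hn : 0 < nrm r := by linarith [div_pos hη (by norm_num : (0 : ℝ) < 50)]
  rw [nu_norm]
  have h1 : ‖∑ m ∈ MM y (K0 L), ch (r * ((⌊(HH N : ℝ) * Real.log m⌋ : ℤ) : ZMod (QQ N L)))‖ /
        (MM y (K0 L)).card ≤ 1 := by
    refine div_le_one_of_le₀ ?_ (Nat.cast_nonneg _)
    refine (norm_sum_le _ _).trans ?_
    refine (Finset.sum_le_card_nsmul _ _ 1 fun m _ => (norm_ch _).le).trans ?_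
    rw [nsmul_eq_mul, mul_one]
  have hR : 1000 / η ≤ (Rn η : ℝ) := Nat.le_ceil _
  have hR0 : 0 < (Rn η : ℝ) := lt_of_lt_of_le (by positivity) hR
  have h2 : ‖∑ x ∈ Finset.range (Rn η), ch (r * (x : ZMod (QQ N L)))‖ / (Rn η : ℝ) ≤ 1 / 40 := by
    rw [div_le_iff₀ hR0]
    refine (norm_win_le_inv _ r hr0).trans ?_
    have h3 : 1 / (2 * nrm r) ≤ 1 / (2 * (η / 50)) :=
      one_div_le_one_div_of_le (by positivity) (by linarith)
    have h4 : 1 / (2 * (η / 50)) = 1 / 40 * (1000 / η) := by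
      field_simp
      norm_num
    rw [h4] at h3
    exact h3.trans (mul_le_mul_of_nonneg_left hR (by norm_num))
  calc _ ≤ 1 * (1 / 40 : ℝ) := mul_le_mul h1 h2 (by positivity) zero_le_one
    _ = 1 / 40 := one_mul _

/-- `|τ| ≤ 2 π H η / 50` if `‖r/Q‖ ≤ η/50` -/
theorem nu_tau_le (N : ℕ) (L η : ℝ) [NeZero (QQ N L)] (r : ZMod (QQ N L))
    (hη : η ≤ 1) (hη0 : 0 < η) (hr : nrm r ≤ η / 50) :
    |tau N L r| ≤ (N : ℝ) ^ 2 ∧ |tau N L r| / HH N ≤ η / 7 := by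
  obtain ⟨h1, h2, h3⟩ := nu_pos N L
  have hpi := Real.pi_pos
  have hpi4 := Real.pi_lt_d2
  have hH : (HH N : ℝ) = (N : ℝ) ^ 2 := by
    unfold HH
    push_cast
    rfl
  rw [nrm_eq_tau, div_le_iff₀ (by positivity)] at hr
  have h4 : |tau N L r| ≤ η / 7 * HH N := by
    refine hr.trans ?_
    have : η / 50 * (2 * Real.pi * HH N) = (Real.pi / 25) * (η * HH N) := by ring
    rw [this]
    have h5 : 0 ≤ η * HH N := by positivity
    have h6 : Real.pi / 25 ≤ 1 / 7 := by linarith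
    calc (Real.pi / 25) * (η * HH N) ≤ 1 / 7 * (η * HH N) := mul_le_mul_of_nonneg_right h6 h5
      _ = η / 7 * HH N := by ring
  constructor
  · rw [← hH]
    refine h4.trans (mul_le_of_le_one_left h2.le (by linarith))
  · rwa [div_le_iff₀ h2]

theorem nu_high : ∃ c0 : ℝ, 0 < c0 ∧ ∃ C : ℝ, ∀ (N k : ℕ) (L y η : ℝ) [NeZero (QQ N L)],
    RegF C N k L y η → η * (k : ℝ) ^ 2 ≤ c0 * Real.log y →
    ∀ r : ZMod (QQ N L), r ∉ LowS N L η → ‖nu N L y η r‖ ≤ 1 - η := by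
  obtain ⟨c0, hc0, C1, hF1⟩ := F1
  obtain ⟨C2, hη2⟩ := η_small 2
  refine ⟨c0, hc0, max C1 C2, ?_⟩
  intro N k L y η _ hR hk r hr
  have hη := hη2 N k L y η (hR.mono (le_max_right _ _))
  have hη0 := hR.η_pos
  by_cases hn : nrm r ≤ η / 50
  · obtain ⟨h1, h2⟩ := nu_tau_le N L η r (by linarith) hη0 hn
    have h3 : 18 * Real.sqrt η ≤ |tau N L r| := by
      by_contra h
      apply hr
      unfold LowS
      rw [Finset.mem_filter]
      exact ⟨Finset.mem_univ _, not_le.1 h⟩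
    have hN : (1 : ℝ) ≤ N := by exact_mod_cast hR.one_le_N
    have h4 : |tau N L r| ≤ (N : ℝ) ^ 3 := h1.trans (pow_le_pow_right₀ hN (by norm_num))
    have h5 := hF1 N k L y η (hR.mono (le_max_left _ _)) hk (tau N L r) h3 h4
    have h6 := nu_le_mu N L y η r
    linarith
  · have h1 := nu_le_noise N L y η hη0 r (not_le.1 hn)
    linarith

theorem card_LowS : ∃ C : ℝ, ∀ (N k : ℕ) (L y η : ℝ) [NeZero (QQ N L)], RegF C N k L y η →
    1 ≤ (LowS N L η).card ∧ ((LowS N L η).card : ℝ) ≤ L := by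
  obtain ⟨C1, hη1⟩ := η_small 3600
  refine ⟨max C1 2, ?_⟩
  intro N k L y η _ hR
  have hη := hη1 N k L y η (hR.mono (le_max_left _ _))
  have hη0 := hR.η_pos
  have hL2 : 2 ≤ L := (le_max_right _ _).trans hR.Lbig
  obtain ⟨h1, h2, h3⟩ := nu_pos N L
  have hpi := Real.pi_pos
  have hpi3 := Real.pi_gt_three
  constructor
  · rw [Nat.one_le_iff_ne_zero, Ne, Finset.card_eq_zero]
    intro h
    have h4 : (0 : ZMod (QQ N L)) ∈ LowS N L η := by
      unfold LowS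
      rw [Finset.mem_filter]
      refine ⟨Finset.mem_univ _, ?_⟩
      have h5 : tau N L (0 : ZMod (QQ N L)) = 0 := by
        unfold tau
        rw [ZMod.valMinAbs_zero, Int.cast_zero, mul_zero, zero_div]
      rw [h5, abs_zero]
      have := Real.sqrt_pos.2 hη0
      linarith
    rw [h] at h4
    exact absurd h4 (Finset.notMem_empty _)
  · have hs : Real.sqrt η ≤ 1 / 60 := by
      rw [Real.sqrt_le_left (by norm_num)]
      norm_num
      linarith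
    have hhL : (hh L : ℝ) ≤ 5 * L := by
      have h4 : (hh L : ℝ) < 4 * L + 1 := Nat.ceil_lt_add_one (by linarith)
      linarith
    obtain ⟨B, hB⟩ : ∃ B : ℝ, B = L / 4 := ⟨_, rfl⟩
    have hB0 : 0 ≤ B := by linarith
    have h5 : ∀ r ∈ LowS N L η, r.valMinAbs ∈ Finset.Icc (-⌊B⌋) ⌊B⌋ := by
      intro r hr
      unfold LowS at hr
      have h6 := (Finset.mem_filter.1 hr).2
      have h7 : |(r.valMinAbs : ℝ)| ≤ B := by
        unfold tau at h6
        rw [abs_div, abs_mul, abs_of_pos (by positivity : (0 : ℝ) < 2 * Real.pi), abs_of_pos h1,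
          div_lt_iff₀ h1] at h6
        have h8 : 18 * Real.sqrt η * (hh L : ℝ) ≤ 18 * (1 / 60) * (5 * L) :=
          mul_le_mul (by linarith) hhL h1.le (by norm_num)
        have h9 : 6 * |(r.valMinAbs : ℝ)| ≤ 2 * Real.pi * |(r.valMinAbs : ℝ)| :=
          mul_le_mul_of_nonneg_right (by linarith) (abs_nonneg _)
        rw [hB]
        linarith
      rw [abs_le] at h7
      rw [Finset.mem_Icc]
      constructor
      · have : -(r.valMinAbs) ≤ ⌊B⌋ := by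
          rw [Int.le_floor]
          push_cast
          linarith [h7.1]
        linarith
      · rw [Int.le_floor]
        exact h7.2
    have h6 : (LowS N L η).card ≤ (Finset.Icc (-⌊B⌋) ⌊B⌋).card :=
      Finset.card_le_card_of_injOn (fun r => r.valMinAbs) h5
        (fun a _ b _ h => ZMod.injective_valMinAbs h)
    rw [Int.card_Icc] at h6
    have hf0 : 0 ≤ ⌊B⌋ := Int.floor_nonneg.2 hB0
    have h7 : (((⌊B⌋ + 1 - -⌊B⌋).toNat : ℕ) : ℤ) = ⌊B⌋ + 1 - -⌊B⌋ := Int.toNat_of_nonneg (by omega)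
    have h8 : (((⌊B⌋ + 1 - -⌊B⌋).toNat : ℕ) : ℝ) = (⌊B⌋ : ℝ) + 1 + ⌊B⌋ := by
      have : (((⌊B⌋ + 1 - -⌊B⌋).toNat : ℕ) : ℝ) = ((((⌊B⌋ + 1 - -⌊B⌋).toNat : ℕ) : ℤ) : ℝ) := by
        push_cast
        rfl
      rw [this, h7]
      push_cast
      ring
    have h9 : ((LowS N L η).card : ℝ) ≤ (((⌊B⌋ + 1 - -⌊B⌋).toNat : ℕ) : ℝ) := by
      exact_mod_cast h6
    have h10 : (⌊B⌋ : ℝ) ≤ B := Int.floor_le B
    rw [h8] at h9
    linarith

theorem bad_facts : ∃ C : ℝ, ∀ (N k : ℕ) (L y η : ℝ) [NeZero (QQ N L)], RegF C N k L y η →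
    ∀ v : ℝ, η / 3 ≤ v → v ≤ 1 / 10 → ∀ r ∈ BadS N L y η v,
    |tau N L r| ≤ (N : ℝ) ^ 2 ∧ Real.exp (-(2 * v)) ≤ ‖mu y (K0 L) (tau N L r)‖ := by
  obtain ⟨C1, hη1⟩ := η_small 1
  refine ⟨C1, ?_⟩
  intro N k L y η _ hR v hv1 hv2 r hr
  have hη := hη1 N k L y η hR
  have hη0 := hR.η_pos
  unfold BadS at hr
  have h1 := (Finset.mem_filter.1 hr).2
  have hv0 : 0 < v := by linarith
  have h2 : 1 - v ≤ Real.exp (-v) := Real.one_sub_le_exp_neg v
  have hn : nrm r ≤ η / 50 := by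
    by_contra h
    have h3 := nu_le_noise N L y η hη0 r (not_le.1 h)
    linarith
  obtain ⟨h3, h4⟩ := nu_tau_le N L η r (by linarith) hη0 hn
  refine ⟨h3, ?_⟩
  have h5 := nu_le_mu N L y η r
  have h6 : Real.exp (-(2 * v)) + η / 7 ≤ Real.exp (-v) := by
    have e1 : Real.exp (-(2 * v)) = Real.exp (-v) * Real.exp (-v) := by
      rw [← Real.exp_add]
      congr 1
      ring
    have e2 : Real.exp (-v) ≤ 1 / (1 + v) := by
      rw [Real.exp_neg, ← one_div]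
      exact one_div_le_one_div_of_le (by linarith) (by linarith [Real.add_one_le_exp v])
    have e3 : 1 - Real.exp (-v) ≥ v / (1 + v) := by
      have : v / (1 + v) = 1 - 1 / (1 + v) := by
        field_simp
        ring
      rw [this]
      linarith
    have e4 : v * (10 / 11) ≤ v / (1 + v) := by
      rw [le_div_iff₀ (by linarith)]
      nlinarith
    have e5 : (9 / 10) * (v * (10 / 11)) ≤ Real.exp (-v) * (1 - Real.exp (-v)) :=
      mul_le_mul (by linarith) (by linarith) (by positivity) (Real.exp_nonneg _)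
    rw [e1]
    nlinarith
  linarith

end MP14ee70.TY
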