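import Mathlib
import Pool.Agent.Lib.MP_14ee70_nt.TY.F.Mu
import Pool.Agent.Lib.MP_14ee70_nt.TY.N.Big
import Pool.Agent.Lib.MP_14ee70_nt.TY.N.Small

/-!
# Project TY, file F/Block: `∑ n^(i θ)` over `(X / 2^l, X]`, `X = y^l`

`S = Ioc ⌊X / 2^l⌋ ⌊X⌋`, `X = y^l`, is the disjoint union of the blocks `UU (X / 2^i)`, `i < l`, and
`X_i = X/2^i ≥ y^(l/2)`.  For `1 ≤ |θ| ≤ 2 N^3`: if `|θ| ≤ X_i^(1/2)`: `small_tau2` and
`(1 + |θ|)|θ| ≤ 2 θ^2 ≤ 2 X_i` give `‖∑_{UU X_i}‖ ≤ 3 C X_i / |θ|`.  If `|θ| > X_i^(1/2)`: `vin` with `ρ1 = 8 k / l`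
(`X_i^ρ1 ≥ y^(4k) ≥ 2 N^3`; `(8k/l) log (8k/l + 2) ≤ 8 k log (10 k) ≤ c l (log y)/2 ≤ c log X_i`):
`‖∑‖ ≤ X_i exp (-c (l log y / 2) l^2 / (64 k^2)) ≤ X_i exp (- (c/128) l^3 η)` (as `η k^2 ≤ log y`).  Sum: `∑ X_i ≤ 2 X`.
-/

namespace MP14ee70.TY

open Finset

namespace Blockaux

theorem sum_blocks (X : ℝ) (hX : 0 ≤ X) (f : ℕ → ℂ) (j : ℕ) :
    ∑ n ∈ Finset.Ioc ⌊X / 2 ^ j⌋₊ ⌊X⌋₊, f n = ∑ i ∈ Finset.range j, ∑ n ∈ UU (X / 2 ^ i), f n := by
  induction j with
  | zero => simp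
  | succ j ih =>
    rw [Finset.sum_range_succ, ← ih]
    unfold UU
    have e : X / 2 ^ j / 2 = X / 2 ^ (j + 1) := by rw [pow_succ]; field_simp
    rw [e]
    have h1 : X / 2 ^ (j + 1) ≤ X / 2 ^ j := by
      rw [div_le_div_iff₀ (by positivity) (by positivity)]
      have : (2 : ℝ) ^ j ≤ 2 ^ (j + 1) := pow_le_pow_right₀ (by norm_num) (by omega)
      exact mul_le_mul_of_nonneg_left this hX
    have h2 : X / 2 ^ j ≤ X := div_le_self hX (one_le_pow₀ (by norm_num))
    rw [add_comm (∑ n ∈ Ioc ⌊X / 2 ^ j⌋₊ ⌊X⌋₊, f n)]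
    exact (Finset.sum_Ioc_consecutive f (Nat.floor_le_floor h1) (Nat.floor_le_floor h2)).symm

theorem sum_geom (X : ℝ) (hX : 0 ≤ X) (j : ℕ) : ∑ i ∈ Finset.range j, X / 2 ^ i ≤ 2 * X := by
  have : ∑ i ∈ Finset.range j, X / 2 ^ i = 2 * X * (1 - 1 / 2 ^ j) := by
    induction j with
    | zero => simp
    | succ j ih =>
      rw [Finset.sum_range_succ, ih, pow_succ]
      field_simp
      ring
  rw [this]
  have h2 : (0 : ℝ) ≤ 1 / 2 ^ j := by positivity
  nlinarith

theorem card_UU_le (X : ℝ) (hX : 0 ≤ X) : ((UU X).card : ℝ) ≤ X := by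
  unfold UU
  rw [Nat.card_Ioc]
  refine le_trans ?_ (Nat.floor_le hX)
  exact_mod_cast Nat.sub_le _ _

end Blockaux

open Blockaux

theorem block_sum : ∃ c : ℝ, 0 < c ∧ ∃ C : ℝ, 0 < C ∧ ∀ (N k : ℕ) (L y η : ℝ), RegF C N k L y η →
    ∀ (l : ℕ) (θ : ℝ), 1 ≤ l → l ≤ k → 1 ≤ |θ| → |θ| ≤ 2 * (N : ℝ) ^ 3 →
    ‖∑ n ∈ Finset.Ioc ⌊y ^ l / 2 ^ l⌋₊ ⌊y ^ l⌋₊, ph θ n‖
      ≤ C * y ^ l * (1 / |θ| + Real.exp (-(c * (l : ℝ) ^ 3 * η))) := by
  obtain ⟨c, hc, Cv, hvin⟩ := vin
  obtain ⟨Cs, hCs, hsmall⟩ := small_tau2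
  refine ⟨c / 128, by positivity, 6 * Cs + 4 + Cv ^ 2 + 64 / c, by positivity, ?_⟩
  intro N k L y η hR l θ hl hlk hθ1 hθ2
  set C : ℝ := 6 * Cs + 4 + Cv ^ 2 + 64 / c with hC
  have h64 : 0 < 64 / c := by positivity
  have hCv2 : 0 ≤ Cv ^ 2 := sq_nonneg _
  have hy : 0 < y := hR.ypos
  have hy4 : 4 ≤ y := by have := hR.ybig; nlinarith
  have hyC : Cv ^ 2 ≤ y := by have := hR.ybig; nlinarith
  have hk3 : (3 : ℝ) ≤ k := by have := hR.kbig; nlinarith
  have hL1 := hR.one_le_L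
  have hlL := hR.one_le_logL
  have hη := hR.η_pos
  have hl1 : (1 : ℝ) ≤ l := by exact_mod_cast hl
  have hlk' : (l : ℝ) ≤ k := by exact_mod_cast hlk
  have hly1 : 1 ≤ Real.log y := by
    refine le_trans ?_ hR.logy_big
    have h1 : (1 : ℝ) ≤ Real.log L ^ 7 := one_le_pow₀ hlL
    have h2 : (1 : ℝ) ≤ C * k := by nlinarith
    nlinarith
  set X : ℝ := y ^ l with hX
  have hXpos : 0 < X := by positivity
  have hsq : 0 < Real.sqrt y := Real.sqrt_pos.2 hy
  have hsq2 : Real.sqrt y ^ 2 = y := Real.sq_sqrt hy.le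
  have hsq3 : 2 ≤ Real.sqrt y := by
    rw [show (2 : ℝ) = Real.sqrt 4 from by
      rw [show (4 : ℝ) = 2 ^ 2 by norm_num, Real.sqrt_sq (by norm_num)]]
    exact Real.sqrt_le_sqrt hy4
  have hsq4 : Real.sqrt y ≤ y / 2 := by nlinarith
  have hXi : ∀ i < l, Real.sqrt y ^ l ≤ X / 2 ^ i := by
    intro i hi
    calc Real.sqrt y ^ l ≤ (y / 2) ^ l := pow_le_pow_left₀ hsq.le hsq4 l
      _ = X / 2 ^ l := by rw [div_pow]
      _ ≤ X / 2 ^ i := by
          rw [div_le_div_iff₀ (by positivity) (by positivity)]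
          exact mul_le_mul_of_nonneg_left (pow_le_pow_right₀ (by norm_num) hi.le) hXpos.le
  have hlogXi : ∀ i < l, l * Real.log y / 2 ≤ Real.log (X / 2 ^ i) := by
    intro i hi
    have := Real.log_le_log (by positivity) (hXi i hi)
    rw [Real.log_pow, Real.log_sqrt hy.le] at this
    linarith
  have hblock : ∀ i < l, ‖∑ n ∈ UU (X / 2 ^ i), ph θ n‖
      ≤ X / 2 ^ i * ((3 * Cs + 1) * (1 / |θ| + Real.exp (-(c / 128 * (l : ℝ) ^ 3 * η)))) := by
    intro i hi
    set Xi : ℝ := X / 2 ^ i with hXidef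
    have hXi0 : 0 < Xi := by positivity
    have hXi1 : Real.sqrt y ≤ Xi := by
      refine le_trans ?_ (hXi i hi)
      calc Real.sqrt y = Real.sqrt y ^ 1 := (pow_one _).symm
        _ ≤ _ := pow_le_pow_right₀ (by linarith) hl
    have hθ0 : 0 < |θ| := by linarith
    have hE0 : 0 < Real.exp (-(c / 128 * (l : ℝ) ^ 3 * η)) := Real.exp_pos _
    rcases le_or_gt |θ| (Xi ^ (1 / 2 : ℝ)) with hcase | hcase
    · have h1 := hsmall Xi θ (by linarith)
      have hθsq : |θ| ^ 2 ≤ Xi := by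
        calc |θ| ^ 2 ≤ (Xi ^ (1 / 2 : ℝ)) ^ 2 := pow_le_pow_left₀ hθ0.le hcase 2
          _ = Xi := by
            rw [← Real.sqrt_eq_rpow, Real.sq_sqrt hXi0.le]
      have h2 : Cs * Xi / (1 + |θ|) ≤ Cs * Xi / |θ| :=
        div_le_div_of_nonneg_left (by positivity) hθ0 (by linarith)
      have h3 : Cs * (1 + |θ|) ≤ 2 * (Cs * Xi / |θ|) := by
        have h4 : |θ| ≤ Xi / |θ| := by
          rw [le_div_iff₀ hθ0]; nlinarith
        have h5 : Cs * |θ| ≤ Cs * (Xi / |θ|) := mul_le_mul_of_nonneg_left h4 hCs.le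
        have h6 : Cs * Xi / |θ| = Cs * (Xi / |θ|) := by ring
        rw [h6]
        nlinarith
      have h7 : Cs * Xi / |θ| = Xi * (Cs * (1 / |θ|)) := by ring
      have h8 : ‖∑ n ∈ UU Xi, ph θ n‖ ≤ Xi * (3 * Cs * (1 / |θ|)) := by
        rw [h7] at h2 h3
        nlinarith
      refine h8.trans (mul_le_mul_of_nonneg_left ?_ hXi0.le)
      have : 0 ≤ 1 / |θ| := by positivity
      nlinarith
    · have hl0 : (0 : ℝ) < l := by linarith
      have hlogX := hlogXi i hi
      have hρ : (1 : ℝ) / 2 ≤ 8 * k / l := by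
        rw [div_le_div_iff₀ (by norm_num) hl0]
        linarith
      have hρ8 : 8 * (k : ℝ) / l ≤ 8 * k := by
        rw [div_le_iff₀ hl0]; nlinarith
      have hkL : (k : ℝ) ≤ L := by have := hR.k_hi; nlinarith
      have hlogk : Real.log (8 * k / l + 2) ≤ 4 * Real.log L := by
        have h1 : 8 * (k : ℝ) / l + 2 ≤ 10 * L := by linarith
        have h2 := Real.log_le_log (by positivity) h1
        rw [Real.log_mul (by norm_num) (by linarith)] at h2
        have h3 : Real.log 10 ≤ 3 := by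
          have h4 : Real.log 10 ≤ Real.log 16 := Real.log_le_log (by norm_num) (by norm_num)
          have h5 : Real.log 16 = 4 * Real.log 2 := by
            rw [show (16 : ℝ) = 2 ^ 4 by norm_num, Real.log_pow]; norm_num
          have := Real.log_two_lt_d9
          linarith
        linarith
      have h1 : 8 * (k : ℝ) / l * Real.log (8 * k / l + 2) ≤ c * Real.log Xi := by
        have h2 : 8 * (k : ℝ) / l * Real.log (8 * k / l + 2) ≤ 8 * k * (4 * Real.log L) :=
          mul_le_mul hρ8 hlogk (Real.log_nonneg (by linarith)) (by positivity)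
        have h3 : 64 / c * (k * Real.log L) ≤ Real.log y := by
          refine le_trans ?_ hR.logy_big
          have h4 : Real.log L ≤ Real.log L ^ 7 := by
            calc Real.log L = Real.log L ^ 1 := (pow_one _).symm
              _ ≤ _ := pow_le_pow_right₀ hlL (by norm_num)
          have h5 : 64 / c ≤ C := by rw [hC]; nlinarith
          calc 64 / c * (k * Real.log L) ≤ C * (k * Real.log L ^ 7) :=
                mul_le_mul h5 (mul_le_mul_of_nonneg_left h4 (by positivity)) (by positivity)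
                  (by positivity)
            _ = _ := by ring
        have h4 : 32 * (k * Real.log L) ≤ c * (Real.log y / 2) := by
          have := mul_le_mul_of_nonneg_left h3 hc.le
          have e : c * (64 / c * (k * Real.log L)) = 64 * (k * Real.log L) := by field_simp
          rw [e] at this
          linarith
        have h5 : Real.log y / 2 ≤ Real.log Xi := by
          refine le_trans ?_ hlogX
          nlinarith
        have h6 := mul_le_mul_of_nonneg_left h5 hc.le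
        nlinarith
      have h2 : |θ| ≤ Xi ^ (8 * (k : ℝ) / l) := by
        refine hθ2.trans ?_
        rw [Real.rpow_def_of_pos hXi0]
        have h3 : 4 * k * Real.log y ≤ Real.log Xi * (8 * k / l) := by
          have h4 : (l * Real.log y / 2) * (8 * k / l) ≤ Real.log Xi * (8 * k / l) :=
            mul_le_mul_of_nonneg_right hlogX (by positivity)
          have e : (l * Real.log y / 2) * (8 * k / l) = 4 * k * Real.log y := by
            field_simp
            ring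
          rwa [e] at h4
        refine le_trans ?_ (Real.exp_le_exp.2 h3)
        have hN0 : (0 : ℝ) < N := by
          have := hR.one_le_N
          exact_mod_cast this
        have e : 2 * (N : ℝ) ^ 3 = Real.exp (Real.log 2 + 3 * L) := by
          rw [Real.exp_add, Real.exp_log (by norm_num), hR.hL]
          have : Real.exp (3 * Real.log N) = (N : ℝ) ^ 3 := by
            have := Real.exp_nat_mul (Real.log N) 3
            rw [Real.exp_log hN0] at this
            exact_mod_cast this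
          rw [this]
        rw [e]
        apply Real.exp_le_exp.2
        have hLy : L = (k + 5 / 8) * Real.log y := by
          rw [hR.logy]
          field_simp
        have := Real.log_two_lt_d9
        rw [hLy]
        nlinarith
      have h3 := hvin Xi θ (8 * k / l) (by
        have : Cv ≤ Real.sqrt y := Real.le_sqrt_of_sq_le hyC
        linarith) hρ h1 hcase.le h2
      have h4 : ((UU Xi).card : ℝ) ≤ Xi := card_UU_le Xi hXi0.le
      have h5 : Real.exp (-(c * Real.log Xi / (8 * k / l) ^ 2))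
          ≤ Real.exp (-(c / 128 * (l : ℝ) ^ 3 * η)) := by
        apply Real.exp_le_exp.2
        apply neg_le_neg
        have e1 : c * Real.log Xi / (8 * k / l) ^ 2 = c * Real.log Xi * (l : ℝ) ^ 2 / (64 * (k : ℝ) ^ 2) := by
          field_simp
          ring
        rw [e1, le_div_iff₀ (by positivity)]
        have h6 := hR.ηk
        have h7 : η * (k : ℝ) ^ 2 * l / 2 ≤ Real.log Xi := by
          refine le_trans ?_ hlogX
          nlinarith
        calc c / 128 * (l : ℝ) ^ 3 * η * (64 * (k : ℝ) ^ 2)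
            = c * (l : ℝ) ^ 2 * (η * (k : ℝ) ^ 2 * l / 2) := by ring
          _ ≤ c * (l : ℝ) ^ 2 * Real.log Xi := mul_le_mul_of_nonneg_left h7 (by positivity)
          _ = _ := by ring
      have h6 : ‖∑ n ∈ UU Xi, ph θ n‖ ≤ Xi * Real.exp (-(c / 128 * (l : ℝ) ^ 3 * η)) :=
        h3.trans (mul_le_mul h4 h5 (Real.exp_pos _).le hXi0.le)
      refine h6.trans (mul_le_mul_of_nonneg_left ?_ hXi0.le)
      have : 0 ≤ 1 / |θ| := by positivity
      nlinarith
  rw [sum_blocks X hXpos.le]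
  have hW : 0 ≤ 1 / |θ| + Real.exp (-(c / 128 * (l : ℝ) ^ 3 * η)) := by positivity
  calc ‖∑ i ∈ Finset.range l, ∑ n ∈ UU (X / 2 ^ i), ph θ n‖
      ≤ ∑ i ∈ Finset.range l, ‖∑ n ∈ UU (X / 2 ^ i), ph θ n‖ := norm_sum_le _ _
    _ ≤ ∑ i ∈ Finset.range l, X / 2 ^ i *
          ((3 * Cs + 1) * (1 / |θ| + Real.exp (-(c / 128 * (l : ℝ) ^ 3 * η)))) :=
        Finset.sum_le_sum fun i hi => hblock i (Finset.mem_range.1 hi)
    _ = (∑ i ∈ Finset.range l, X / 2 ^ i) *
          ((3 * Cs + 1) * (1 / |θ| + Real.exp (-(c / 128 * (l : ℝ) ^ 3 * η)))) := by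
        rw [Finset.sum_mul]
    _ ≤ 2 * X * ((3 * Cs + 1) * (1 / |θ| + Real.exp (-(c / 128 * (l : ℝ) ^ 3 * η)))) :=
        mul_le_mul_of_nonneg_right (sum_geom X hXpos.le l) (by positivity)
    _ = (6 * Cs + 2) * (X * (1 / |θ| + Real.exp (-(c / 128 * (l : ℝ) ^ 3 * η)))) := by ring
    _ ≤ C * (X * (1 / |θ| + Real.exp (-(c / 128 * (l : ℝ) ^ 3 * η)))) := by
        refine mul_le_mul_of_nonneg_right ?_ (by positivity)
        rw [hC]; nlinarith
    _ = _ := by ring

end MP14ee70.TY
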