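import Mathlib
import Pool.Agent.Lib.MP_14ee70_nt.TY.Defs

/-!
# Project TY, file F/HM: the duality inequality of Halász and Montgomery, and a sum over separated points

`halasz`: choose unimodular `c τ` with `c τ * f(τ) = |f(τ)|`, `f(τ) = ∑_{n ∈ S} a n n^(iτ)`.  Then
`#TT V ≤ ∑_τ c τ f(τ) = ∑_n a n ∑_τ c τ n^(iτ)`, Cauchy-Schwarz, and
`∑_{n ∈ S} |∑_τ c τ n^(iτ)|^2 = ∑_{τ,τ'} c τ conj(c τ') ∑_n n^(i(τ-τ')) ≤ ∑_{τ,τ'} |∑_{n ∈ S} n^(i(τ-τ'))|`
(`conj (ph τ' n) = ph (-τ') n`, `ph τ n * ph (-τ') n = ph (τ - τ') n`).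
`sum_inv_sep`: for fixed `τ` the points `τ' > τ` are `≥ τ + 1, τ + 2, …`: `∑ 1/|τ - τ'| ≤ 2 ∑_{j ≤ 2T} 1/j ≤ 2 (1 + log (2T))`.
(A convenient proof: the map `τ' ↦ ⌊|τ' - τ|⌋₊ ∈ [1, 2T]` is injective on each side of `τ`.)
-/

namespace MP14ee70.TY

open Finset

namespace HMaux

theorem ph_sub (τ τ' x : ℝ) : ph τ x * (starRingEnd ℂ) (ph τ' x) = ph (τ - τ') x := by
  simp only [ph]
  rw [← Complex.exp_conj, ← Complex.exp_add]
  congr 1
  simp only [map_mul, Complex.conj_ofReal, Complex.conj_I]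
  push_cast
  ring

theorem exists_unim (z : ℂ) : ∃ c : ℂ, ‖c‖ = 1 ∧ c * z = (‖z‖ : ℂ) := by
  by_cases h : z = 0
  · exact ⟨1, by simp, by simp [h]⟩
  · have hz : (‖z‖ : ℂ) ≠ 0 := by
      rw [Ne, Complex.ofReal_eq_zero, norm_eq_zero]; exact h
    refine ⟨(starRingEnd ℂ) z / ‖z‖, ?_, ?_⟩
    · rw [norm_div, RCLike.norm_conj, Complex.norm_real, norm_norm, div_self]
      exact norm_ne_zero_iff.2 h
    · rw [div_mul_eq_mul_div, div_eq_iff hz, mul_comm, Complex.mul_conj, Complex.normSq_eq_norm_sq]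
      push_cast
      ring

end HMaux

open HMaux

theorem halasz (S : Finset ℕ) (a : ℕ → ℝ) (TT : Finset ℝ) (V : ℝ) (hV : 0 ≤ V)
    (h : ∀ τ ∈ TT, V ≤ ‖∑ n ∈ S, (a n : ℂ) * ph τ n‖) :
    ((TT.card : ℝ) * V) ^ 2 ≤
      (∑ n ∈ S, a n ^ 2) * ∑ τ ∈ TT, ∑ τ' ∈ TT, ‖∑ n ∈ S, ph (τ - τ') n‖ := by
  classical
  choose c hc1 hc2 using fun τ : ℝ => exists_unim (∑ n ∈ S, (a n : ℂ) * ph τ n)
  set G : ℕ → ℂ := fun n => ∑ τ ∈ TT, c τ * ph τ n with hG
  have h1 : (TT.card : ℝ) * V ≤ ‖∑ n ∈ S, (a n : ℂ) * G n‖ := by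
    have e : ∑ n ∈ S, (a n : ℂ) * G n
        = ((∑ τ ∈ TT, ‖∑ n ∈ S, (a n : ℂ) * ph τ n‖ : ℝ) : ℂ) := by
      push_cast
      rw [← Finset.sum_congr rfl fun τ _ => hc2 τ]
      simp only [hG, Finset.mul_sum]
      rw [Finset.sum_comm]
      exact Finset.sum_congr rfl fun τ _ => Finset.sum_congr rfl fun n _ => by ring
    rw [e, Complex.norm_real, Real.norm_of_nonneg (Finset.sum_nonneg fun _ _ => norm_nonneg _)]
    have := Finset.sum_le_sum h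
    rwa [Finset.sum_const, nsmul_eq_mul] at this
  have h2 : ‖∑ n ∈ S, (a n : ℂ) * G n‖ ^ 2 ≤ (∑ n ∈ S, a n ^ 2) * ∑ n ∈ S, ‖G n‖ ^ 2 := by
    have h3 : ‖∑ n ∈ S, (a n : ℂ) * G n‖ ≤ ∑ n ∈ S, |a n| * ‖G n‖ := by
      refine (norm_sum_le _ _).trans_eq (Finset.sum_congr rfl fun n _ => ?_)
      rw [norm_mul, Complex.norm_real, Real.norm_eq_abs]
    calc ‖∑ n ∈ S, (a n : ℂ) * G n‖ ^ 2 ≤ (∑ n ∈ S, |a n| * ‖G n‖) ^ 2 :=
          pow_le_pow_left₀ (norm_nonneg _) h3 2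
      _ ≤ (∑ n ∈ S, |a n| ^ 2) * ∑ n ∈ S, ‖G n‖ ^ 2 := Finset.sum_mul_sq_le_sq_mul_sq _ _ _
      _ = _ := by simp only [sq_abs]
  have h4 : ∑ n ∈ S, ‖G n‖ ^ 2 ≤ ∑ τ ∈ TT, ∑ τ' ∈ TT, ‖∑ n ∈ S, ph (τ - τ') n‖ := by
    have e : ((∑ n ∈ S, ‖G n‖ ^ 2 : ℝ) : ℂ)
        = ∑ τ ∈ TT, ∑ τ' ∈ TT, c τ * (starRingEnd ℂ) (c τ') * ∑ n ∈ S, ph (τ - τ') n := by
      have e1 : ∀ n, ((‖G n‖ ^ 2 : ℝ) : ℂ)
          = ∑ τ ∈ TT, ∑ τ' ∈ TT, c τ * (starRingEnd ℂ) (c τ') * ph (τ - τ') n := by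
        intro n
        rw [← Complex.normSq_eq_norm_sq, ← Complex.mul_conj]
        simp only [hG, map_sum, Finset.sum_mul_sum, map_mul]
        refine Finset.sum_congr rfl fun τ _ => Finset.sum_congr rfl fun τ' _ => ?_
        rw [← ph_sub]
        ring
      rw [Complex.ofReal_sum, Finset.sum_congr rfl fun n _ => e1 n, Finset.sum_comm]
      refine Finset.sum_congr rfl fun τ _ => ?_
      rw [Finset.sum_comm]
      refine Finset.sum_congr rfl fun τ' _ => ?_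
      rw [Finset.mul_sum]
    have e2 : ∑ n ∈ S, ‖G n‖ ^ 2 = ‖((∑ n ∈ S, ‖G n‖ ^ 2 : ℝ) : ℂ)‖ := by
      rw [Complex.norm_real, Real.norm_of_nonneg (Finset.sum_nonneg fun _ _ => by positivity)]
    rw [e2, e]
    refine (norm_sum_le _ _).trans (Finset.sum_le_sum fun τ _ => ?_)
    refine (norm_sum_le _ _).trans (Finset.sum_le_sum fun τ' _ => ?_)
    rw [norm_mul, norm_mul, RCLike.norm_conj, hc1, hc1, one_mul, one_mul]
  calc ((TT.card : ℝ) * V) ^ 2 ≤ ‖∑ n ∈ S, (a n : ℂ) * G n‖ ^ 2 :=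
        pow_le_pow_left₀ (by positivity) h1 2
    _ ≤ _ := h2
    _ ≤ _ := mul_le_mul_of_nonneg_left h4 (Finset.sum_nonneg fun _ _ => by positivity)

namespace HMaux

/-- The sum over the points at distance `≥ 1` from `0` on one side. -/
theorem one_side (T : ℝ) (hT : 1 ≤ T) (A : Finset ℝ) (h1 : ∀ x ∈ A, 1 ≤ x ∧ x ≤ 2 * T)
    (h2 : ∀ x ∈ A, ∀ z ∈ A, x ≠ z → 1 ≤ |x - z|) :
    ∑ x ∈ A, 1 / x ≤ 1 + Real.log (2 * T) := by
  classical
  have hinj : Set.InjOn (fun x : ℝ => ⌊x⌋₊) (A : Set ℝ) := by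
    intro x hx z hz hxz
    by_contra hne
    have h3 := h2 x hx z hz hne
    have hx0 : (0 : ℝ) ≤ x := by linarith [(h1 x hx).1]
    have hz0 : (0 : ℝ) ≤ z := by linarith [(h1 z hz).1]
    have e : (⌊x⌋₊ : ℝ) = (⌊z⌋₊ : ℝ) := by exact_mod_cast hxz
    have a1 := Nat.floor_le hx0
    have a2 := Nat.lt_floor_add_one x
    have a3 := Nat.floor_le hz0
    have a4 := Nat.lt_floor_add_one z
    have : |x - z| < 1 := by
      rw [abs_lt]; constructor <;> linarith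
    linarith
  calc ∑ x ∈ A, 1 / x ≤ ∑ x ∈ A, 1 / ((⌊x⌋₊ : ℕ) : ℝ) := by
        refine Finset.sum_le_sum fun x hx => ?_
        have h3 := (h1 x hx).1
        have h4 : (1 : ℝ) ≤ (⌊x⌋₊ : ℝ) := by exact_mod_cast (Nat.one_le_floor_iff x).2 h3
        exact one_div_le_one_div_of_le (by linarith) (Nat.floor_le (by linarith))
    _ = ∑ j ∈ A.image (fun x : ℝ => ⌊x⌋₊), 1 / (j : ℝ) := by
        rw [Finset.sum_image hinj]
    _ ≤ ∑ j ∈ Finset.Icc 1 ⌊2 * T⌋₊, 1 / (j : ℝ) := by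
        refine Finset.sum_le_sum_of_subset_of_nonneg ?_ fun _ _ _ => by positivity
        intro j hj
        rw [Finset.mem_image] at hj
        obtain ⟨x, hx, rfl⟩ := hj
        rw [Finset.mem_Icc]
        exact ⟨(Nat.one_le_floor_iff x).2 (h1 x hx).1, Nat.floor_le_floor (h1 x hx).2⟩
    _ = ((harmonic ⌊2 * T⌋₊ : ℚ) : ℝ) := by
        rw [harmonic_eq_sum_Icc]
        push_cast
        simp only [one_div]
    _ ≤ 1 + Real.log (2 * T) := harmonic_floor_le_one_add_log (2 * T) (by linarith)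

end HMaux

theorem sum_inv_sep (T : ℝ) (hT : 1 ≤ T) (TT : Finset ℝ) (h : Sep T TT) (τ : ℝ) (hτ : τ ∈ TT) :
    ∑ τ' ∈ TT.erase τ, 1 / |τ - τ'| ≤ 2 * (1 + Real.log (2 * T)) := by
  classical
  have hsplit : ∑ τ' ∈ TT.erase τ, 1 / |τ - τ'|
      = ∑ τ' ∈ (TT.erase τ).filter (fun z => τ < z), 1 / |τ - τ'|
        + ∑ τ' ∈ (TT.erase τ).filter (fun z => ¬ τ < z), 1 / |τ - τ'| :=
    (Finset.sum_filter_add_sum_filter_not _ _ _).symm
  have hb : ∀ z ∈ TT.erase τ, 1 ≤ |τ - z| ∧ |τ - z| ≤ 2 * T := by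
    intro z hz
    rw [Finset.mem_erase] at hz
    refine ⟨h.2 τ hτ z hz.2 (Ne.symm hz.1), ?_⟩
    have h3 := abs_le.1 (h.1 τ hτ)
    have h4 := abs_le.1 (h.1 z hz.2)
    rw [abs_le]
    constructor <;> linarith [h3.1, h3.2, h4.1, h4.2]
  have hR : ∑ τ' ∈ (TT.erase τ).filter (fun z => τ < z), 1 / |τ - τ'| ≤ 1 + Real.log (2 * T) := by
    have hinj : Set.InjOn (fun z : ℝ => z - τ) ((TT.erase τ).filter (fun z => τ < z) : Set ℝ) :=
      fun x _ z _ hxz => by simpa using hxz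
    have e : ∑ τ' ∈ (TT.erase τ).filter (fun z => τ < z), 1 / |τ - τ'|
        = ∑ x ∈ ((TT.erase τ).filter (fun z => τ < z)).image (fun z : ℝ => z - τ), 1 / x := by
      rw [Finset.sum_image hinj]
      refine Finset.sum_congr rfl fun z hz => ?_
      rw [Finset.mem_filter] at hz
      rw [abs_sub_comm, abs_of_pos (by linarith [hz.2])]
    rw [e]
    refine one_side T hT _ ?_ ?_
    · intro x hx
      rw [Finset.mem_image] at hx
      obtain ⟨z, hz, rfl⟩ := hx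
      rw [Finset.mem_filter] at hz
      have := hb z hz.1
      rw [abs_sub_comm, abs_of_pos (by linarith [hz.2])] at this
      exact this
    · intro x hx z hz hne
      rw [Finset.mem_image] at hx hz
      obtain ⟨x, hx, rfl⟩ := hx
      obtain ⟨z, hz, rfl⟩ := hz
      rw [Finset.mem_filter, Finset.mem_erase] at hx hz
      have := h.2 x hx.1.2 z hz.1.2 (fun e => hne (by rw [e]))
      simpa using this
  have hL : ∑ τ' ∈ (TT.erase τ).filter (fun z => ¬ τ < z), 1 / |τ - τ'| ≤ 1 + Real.log (2 * T) := by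
    have hinj : Set.InjOn (fun z : ℝ => τ - z) ((TT.erase τ).filter (fun z => ¬ τ < z) : Set ℝ) :=
      fun x _ z _ hxz => by simpa using hxz
    have hlt : ∀ z ∈ (TT.erase τ).filter (fun z => ¬ τ < z), z < τ := by
      intro z hz
      rw [Finset.mem_filter, Finset.mem_erase] at hz
      exact lt_of_le_of_ne (not_lt.1 hz.2) hz.1.1
    have e : ∑ τ' ∈ (TT.erase τ).filter (fun z => ¬ τ < z), 1 / |τ - τ'|
        = ∑ x ∈ ((TT.erase τ).filter (fun z => ¬ τ < z)).image (fun z : ℝ => τ - z), 1 / x := by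
      rw [Finset.sum_image hinj]
      refine Finset.sum_congr rfl fun z hz => ?_
      rw [abs_of_pos (by linarith [hlt z hz])]
    rw [e]
    refine one_side T hT _ ?_ ?_
    · intro x hx
      rw [Finset.mem_image] at hx
      obtain ⟨z, hz, rfl⟩ := hx
      have h5 := hlt z hz
      rw [Finset.mem_filter] at hz
      have := hb z hz.1
      rw [abs_of_pos (by linarith)] at this
      exact this
    · intro x hx z hz hne
      rw [Finset.mem_image] at hx hz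
      obtain ⟨x, hx, rfl⟩ := hx
      obtain ⟨z, hz, rfl⟩ := hz
      rw [Finset.mem_filter, Finset.mem_erase] at hx hz
      have := h.2 z hz.1.2 x hx.1.2 (fun e => hne (by rw [e]))
      have e2 : τ - x - (τ - z) = z - x := by ring
      rw [e2]
      exact this
  rw [hsplit]
  linarith

end MP14ee70.TY
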