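import Mathlib
import Pool.Agent.Lib.MP_14ee70_nt.TY.F.Mu
import Pool.Agent.Lib.MP_14ee70_nt.TY.F.HM
import Pool.Agent.Lib.MP_14ee70_nt.TY.F.Block
import Pool.Agent.Lib.MP_14ee70_nt.TY.M.Div

/-!
# Project TY, file F/F2: large values of `mu`

`a n = ((unif M)^l).pm n`; `∑_{n ∈ S} a n ph τ n = (mu τ)^l` with `S = Ioc ⌊y^l / 2^l⌋ ⌊y^l⌋` (the products of `l`
elements of `M` lie in `S`; `Law.pow_EC_hom` for the multiplicative function `n ↦ if n = 0 then 0 else ph τ n`),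
`∑ a n^2 ≤ max a ≤ (3 D / y)^l` (`pm_pow_le`, `card_MM`, `l ≤ k`).  `halasz` with `V = exp (-l v)`, `block_sum` for
`θ = τ - τ' ≠ 0`, `#S ≤ y^l` for `θ = 0`, `sum_inv_sep` (`log (2 N^3) ≤ 4 L`):
`#TT^2 e^(-2lv) ≤ (3D)^l #TT C' (L + #TT exp(-c2 l^3 η))`, i.e. `#TT ≤ (3D)^l e^(2lv) C' (L + #TT exp (-c2 l^3 η))`, and the hypothesis,
with `c1 = c2 / (1 + log (2C'))`, gives `(3D)^l e^(2lv) C' exp(-c2 l^3 η) ≤ 1/2`.
-/

namespace MP14ee70.TY

open Finset

namespace F2aux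

theorem ph_zero (x : ℝ) : ph 0 x = 1 := by simp [ph]

theorem ph_one (τ : ℝ) : ph τ 1 = 1 := by simp [ph]

theorem ph_mul (τ : ℝ) {x z : ℝ} (hx : x ≠ 0) (hz : z ≠ 0) : ph τ (x * z) = ph τ x * ph τ z := by
  simp only [ph]
  rw [Real.log_mul hx hz, ← Complex.exp_add]
  congr 1
  push_cast
  ring

theorem unif_EC {α : Type*} (s : Finset α) (hs : s.Nonempty) (f : α → ℂ) :
    (Law.unif s hs).EC f = (∑ x ∈ s, f x) / (s.card : ℂ) := by
  have h : ∀ z : ℂ, z / (s.card : ℂ) = ⟨z.re / s.card, z.im / s.card⟩ := fun z => by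
    apply Complex.ext
    · exact Complex.div_natCast_re z s.card
    · exact Complex.div_natCast_im z s.card
  rw [h]
  simp only [Law.EC, Law.unif_E, Complex.re_sum, Complex.im_sum]

theorem EC_ind {α : Type*} (p : Law α) (n : α) [DecidablePred fun x => x = n] :
    p.EC (fun x => if x = n then (1 : ℂ) else 0) = (p.pm n : ℂ) := by
  classical
  apply Complex.ext
  · simp only [Law.EC, Law.pm, Complex.ofReal_re]
    congr 1
    funext x
    by_cases h : x = n <;> simp [h]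
  · simp only [Law.EC, Complex.ofReal_im]
    have : (fun x => (if x = n then (1 : ℂ) else 0).im) = fun _ => (0 : ℝ) := by
      funext x
      by_cases h : x = n <;> simp [h]
    rw [this, Law.E_const]

theorem EC_congr {α : Type*} {p : Law α} {A : α → Prop} (h : p.Supp A) {f g : α → ℂ}
    (hfg : ∀ x, A x → f x = g x) : p.EC f = p.EC g := by
  apply Complex.ext
  · exact h.E_congr fun x hx => by rw [hfg x hx]
  · exact h.E_congr fun x hx => by rw [hfg x hx]

theorem EC_eq_sum_of_supp {α : Type*} [DecidableEq α] (p : Law α) (S : Finset α)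
    (h : p.Supp (· ∈ S)) (f : α → ℂ) : p.EC f = ∑ n ∈ S, (p.pm n : ℂ) * f n := by
  have h1 : p.EC f = p.EC (fun x => ∑ n ∈ S, (if x = n then (1 : ℂ) else 0) * f n) := by
    refine EC_congr h fun x hx => ?_
    simp only [ite_mul, one_mul, zero_mul]
    rw [Finset.sum_ite_eq S x f, if_pos hx]
  rw [h1, Law.EC_sum]
  refine Finset.sum_congr rfl fun n _ => ?_
  rw [Law.EC_mul_const, EC_ind]

theorem sum_pm_le {α : Type*} [DecidableEq α] (p : Law α) (S : Finset α) :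
    ∑ n ∈ S, p.pm n ≤ 1 := by
  have : ∑ n ∈ S, p.pm n = p.E (fun x => ∑ n ∈ S, if x = n then (1 : ℝ) else 0) := by
    rw [Law.E_sum]
    refine Finset.sum_congr rfl fun n _ => ?_
    unfold Law.pm
    congr 1
    funext x
    congr
  rw [this]
  refine p.E_le_of_le fun x => ?_
  rw [Finset.sum_ite_eq S x fun _ => (1 : ℝ)]
  split_ifs <;> norm_num

theorem supp_pow (M : Finset ℕ) (hM : M.Nonempty) (y : ℝ) (hy : 0 < y)
    (h : ∀ m ∈ M, y / 2 < m ∧ (m : ℝ) ≤ y) (l : ℕ) :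
    ((Law.unif M hM) ^ (l + 1)).Supp
      (fun n => (y / 2) ^ (l + 1) < (n : ℝ) ∧ (n : ℝ) ≤ y ^ (l + 1)) := by
  induction l with
  | zero =>
    simp only [zero_add, pow_one]
    exact (Law.supp_wt _ _ _ _).mono fun x hx => h x hx
  | succ l ih =>
    rw [pow_succ]
    refine Law.supp_mul ih (Law.supp_wt M _ _ _) ?_
    rintro x z ⟨hx1, hx2⟩ hz
    obtain ⟨hz1, hz2⟩ := h z hz
    have hy2 : 0 < y / 2 := by positivity
    push_cast
    constructor
    · rw [pow_succ (y / 2)]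
      exact mul_lt_mul'' hx1 hz1 (by positivity) hy2.le
    · rw [pow_succ y]
      exact mul_le_mul hx2 hz2 (hy2.trans hz1).le (by positivity)

theorem mem_S {y : ℝ} (hy : 0 < y) {l n : ℕ} (h1 : (y / 2) ^ l < (n : ℝ)) (h2 : (n : ℝ) ≤ y ^ l) :
    n ∈ Finset.Ioc ⌊y ^ l / 2 ^ l⌋₊ ⌊y ^ l⌋₊ := by
  rw [Finset.mem_Ioc]
  constructor
  · rw [Nat.floor_lt (by positivity), ← div_pow]
    exact h1
  · exact Nat.le_floor h2

/-- The identity `∑ a n ph τ n = (mu τ)^l`. -/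
theorem mu_pow (y : ℝ) (K : ℕ) (hy : 0 < y) (hM : (MM y K).Nonempty) (τ : ℝ) (l : ℕ) (hl : 1 ≤ l) :
    ∑ n ∈ Finset.Ioc ⌊y ^ l / 2 ^ l⌋₊ ⌊y ^ l⌋₊,
      ((((Law.unif (MM y K) hM) ^ l).pm n : ℝ) : ℂ) * ph τ n = mu y K τ ^ l := by
  classical
  obtain ⟨l, rfl⟩ : ∃ j, l = j + 1 := ⟨l - 1, by omega⟩
  have hmem : ∀ m ∈ MM y K, y / 2 < m ∧ (m : ℝ) ≤ y := fun m hm =>
    ⟨(mem_MM hy.le hm).1, (mem_MM hy.le hm).2.1⟩
  set χ : ℕ → ℂ := fun n => if n = 0 then 0 else ph τ n with hχ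
  have hχ1 : χ 1 = 1 := by
    simp only [hχ]
    rw [if_neg one_ne_zero, Nat.cast_one, ph_one]
  have hχm : ∀ x z, χ (x * z) = χ x * χ z := by
    intro x z
    simp only [hχ]
    by_cases hx : x = 0
    · simp [hx]
    · by_cases hz : z = 0
      · simp [hz]
      · rw [if_neg (mul_ne_zero hx hz), if_neg hx, if_neg hz, Nat.cast_mul,
          ph_mul τ (by exact_mod_cast hx) (by exact_mod_cast hz)]
  have hsupp := supp_pow (MM y K) hM y hy hmem l
  have hs2 : ((Law.unif (MM y K) hM) ^ (l + 1)).Supp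
      (· ∈ Finset.Ioc ⌊y ^ (l + 1) / 2 ^ (l + 1)⌋₊ ⌊y ^ (l + 1)⌋₊) :=
    hsupp.mono fun x hx => mem_S hy hx.1 hx.2
  have e1 := EC_eq_sum_of_supp _ _ hs2 χ
  rw [Law.pow_EC_hom _ χ hχ1 hχm, unif_EC] at e1
  have e2 : (∑ x ∈ MM y K, χ x) / ((MM y K).card : ℂ) = mu y K τ := by
    unfold mu
    congr 1
    refine Finset.sum_congr rfl fun m hm => ?_
    have : m ≠ 0 := by
      rintro rfl
      have := (hmem 0 hm).1
      simp only [Nat.cast_zero] at this
      linarith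
    simp only [hχ, if_neg this]
  rw [e2] at e1
  rw [e1]
  refine Finset.sum_congr rfl fun n hn => ?_
  have : n ≠ 0 := by
    rintro rfl
    rw [Finset.mem_Ioc] at hn
    omega
  simp only [hχ, if_neg this]

end F2aux

open F2aux

theorem F2 : ∃ c1 : ℝ, 0 < c1 ∧ ∃ C : ℝ, 0 < C ∧ ∀ (N k : ℕ) (L y η : ℝ), RegF C N k L y η →
    ∀ (TT : Finset ℝ) (v : ℝ) (l : ℕ), Sep ((N : ℝ) ^ 3) TT → 0 ≤ v →
    (∀ τ ∈ TT, Real.exp (-v) ≤ ‖mu y (K0 L) τ‖) → 1 ≤ l → l ≤ k →
    Real.log (3 * DD k L) + 2 * v + 1 ≤ c1 * (l : ℝ) ^ 2 * η →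
    (TT.card : ℝ) ≤ C * L * (3 * DD k L) ^ l * Real.exp (2 * l * v) := by
  classical
  obtain ⟨c, hc, C2, hC2, hblock⟩ := block_sum
  obtain ⟨C3, hcard⟩ := card_MM
  set c1 : ℝ := c / (2 + |Real.log (2 * C2)|) with hc1
  have hden : (0 : ℝ) < 2 + |Real.log (2 * C2)| := by positivity
  have hc1pos : 0 < c1 := div_pos hc hden
  refine ⟨c1, hc1pos, 2 * (1 + 10 * C2) + |C3|, by positivity, ?_⟩
  intro N k L y η hR TT v l hSep hv hTT hl hlk hyp
  have hR2 : RegF C2 N k L y η := hR.mono (by nlinarith [abs_nonneg C3])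
  have hR3 : RegF C3 N k L y η := hR.mono (by
    have := le_abs_self C3
    nlinarith)
  have hy : 0 < y := hR.ypos
  have hL1 : 1 ≤ L := hR.one_le_L
  have hη : 0 < η := hR.η_pos
  have hD1 : 1 ≤ DD k L := hR.one_le_D
  have hl1 : (1 : ℝ) ≤ l := by exact_mod_cast hl
  have hMcard := hcard N k L y η hR3
  have hMpos : (0 : ℝ) < (MM y (K0 L)).card := lt_of_lt_of_le (by positivity) hMcard
  have hM : (MM y (K0 L)).Nonempty := by
    rw [← Finset.card_pos]
    exact_mod_cast hMpos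
  have h0 : 0 ∉ MM y (K0 L) := fun h => by
    have := (mem_MM hy.le h).1
    simp only [Nat.cast_zero] at this
    linarith
  set S := Finset.Ioc ⌊y ^ l / 2 ^ l⌋₊ ⌊y ^ l⌋₊ with hS
  set a : ℕ → ℝ := fun n => ((Law.unif (MM y (K0 L)) hM) ^ l).pm n with ha
  have hyl : 0 < y ^ l := by positivity
  -- the values of the polynomial
  have hval : ∀ τ ∈ TT, Real.exp (-(l * v)) ≤ ‖∑ n ∈ S, (a n : ℂ) * ph τ n‖ := by
    intro τ hτ
    rw [mu_pow y (K0 L) hy hM τ l hl, norm_pow]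
    calc Real.exp (-(l * v)) = Real.exp (-v) ^ l := by
          rw [← Real.exp_nat_mul]; congr 1; ring
      _ ≤ _ := pow_le_pow_left₀ (Real.exp_pos _).le (hTT τ hτ) l
  have hH := halasz S a TT (Real.exp (-(l * v))) (Real.exp_pos _).le hval
  -- the square sum of the coefficients
  have ha0 : ∀ n, 0 ≤ a n := fun n => Law.pm_nonneg _ _
  have hamax : ∀ n, a n ≤ (3 * DD k L / y) ^ l := by
    intro n
    have h1 := pm_pow_le (MM y (K0 L)) hM h0 (K0 L) l n (DD k L)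
      (fun m hm => (mem_MM hy.le hm).2.2) (by
        unfold DD
        refine pow_le_pow_left₀ (by positivity) ?_ _
        have : (l : ℝ) ≤ k := by exact_mod_cast hlk
        linarith)
    refine h1.trans (pow_le_pow_left₀ (by positivity) ?_ l)
    rw [div_le_div_iff₀ hMpos hy]
    nlinarith
  have hsq : ∑ n ∈ S, a n ^ 2 ≤ (3 * DD k L / y) ^ l := by
    calc ∑ n ∈ S, a n ^ 2 ≤ ∑ n ∈ S, (3 * DD k L / y) ^ l * a n := by
          refine Finset.sum_le_sum fun n _ => ?_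
          rw [pow_two]
          exact mul_le_mul_of_nonneg_right (hamax n) (ha0 n)
      _ = (3 * DD k L / y) ^ l * ∑ n ∈ S, a n := by rw [Finset.mul_sum]
      _ ≤ (3 * DD k L / y) ^ l * 1 := by
          refine mul_le_mul_of_nonneg_left (sum_pm_le _ _) (by positivity)
      _ = _ := mul_one _
  -- the inner sums
  set Ex : ℝ := Real.exp (-(c * (l : ℝ) ^ 3 * η)) with hEx
  have hEx0 : 0 < Ex := Real.exp_pos _
  have hN1 : 1 ≤ N := hR.one_le_N
  have hN1r : (1 : ℝ) ≤ N := by exact_mod_cast hN1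
  have hN3 : (1 : ℝ) ≤ (N : ℝ) ^ 3 := one_le_pow₀ hN1r
  have hlog : 1 + Real.log (2 * (N : ℝ) ^ 3) ≤ 5 * L := by
    rw [Real.log_mul (by norm_num) (by positivity), Real.log_pow, ← hR.hL]
    have := Real.log_two_lt_d9
    push_cast
    linarith
  have hcardS : ((S.card : ℕ) : ℝ) ≤ y ^ l := by
    rw [hS, Nat.card_Ioc]
    refine le_trans ?_ (Nat.floor_le hyl.le)
    exact_mod_cast Nat.sub_le _ _
  have hinner : ∀ τ ∈ TT, ∑ τ' ∈ TT, ‖∑ n ∈ S, ph (τ - τ') n‖
      ≤ y ^ l * ((1 + 10 * C2) * L + C2 * (TT.card * Ex)) := by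
    intro τ hτ
    rw [← Finset.add_sum_erase TT _ hτ]
    have h1 : ‖∑ n ∈ S, ph (τ - τ) n‖ ≤ y ^ l := by
      simp only [sub_self, ph_zero, Finset.sum_const, nsmul_eq_mul, mul_one]
      rw [Complex.norm_natCast]
      exact hcardS
    have h2 : ∑ τ' ∈ TT.erase τ, ‖∑ n ∈ S, ph (τ - τ') n‖
        ≤ ∑ τ' ∈ TT.erase τ, C2 * y ^ l * (1 / |τ - τ'| + Ex) := by
      refine Finset.sum_le_sum fun τ' hτ' => ?_
      rw [Finset.mem_erase] at hτ'
      refine hblock N k L y η hR2 l (τ - τ') hl hlk (hSep.2 τ hτ τ' hτ'.2 (Ne.symm hτ'.1)) ?_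
      have h3 := abs_le.1 (hSep.1 τ hτ)
      have h4 := abs_le.1 (hSep.1 τ' hτ'.2)
      rw [abs_le]
      constructor <;> linarith [h3.1, h3.2, h4.1, h4.2]
    have h3 : ∑ τ' ∈ TT.erase τ, C2 * y ^ l * (1 / |τ - τ'| + Ex)
        ≤ C2 * y ^ l * (10 * L + TT.card * Ex) := by
      rw [← Finset.mul_sum, Finset.sum_add_distrib, Finset.sum_const, nsmul_eq_mul]
      refine mul_le_mul_of_nonneg_left ?_ (by positivity)
      refine add_le_add ?_ (mul_le_mul_of_nonneg_right ?_ hEx0.le)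
      · have := sum_inv_sep ((N : ℝ) ^ 3) hN3 TT hSep τ hτ
        linarith
      · exact_mod_cast Finset.card_le_card (Finset.erase_subset _ _)
    calc _ ≤ y ^ l + C2 * y ^ l * (10 * L + TT.card * Ex) := add_le_add h1 (h2.trans h3)
      _ ≤ y ^ l * ((1 + 10 * C2) * L + C2 * (TT.card * Ex)) := by
          nlinarith [mul_le_mul_of_nonneg_left hL1 hyl.le]
  have hdouble : ∑ τ ∈ TT, ∑ τ' ∈ TT, ‖∑ n ∈ S, ph (τ - τ') n‖
      ≤ TT.card * (y ^ l * ((1 + 10 * C2) * L + C2 * (TT.card * Ex))) := by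
    have := Finset.sum_le_sum hinner
    rwa [Finset.sum_const, nsmul_eq_mul] at this
  -- combination
  rcases Nat.eq_zero_or_pos TT.card with hzero | hpos
  · rw [hzero]
    simp only [Nat.cast_zero]
    positivity
  have hTpos : (0 : ℝ) < TT.card := by exact_mod_cast hpos
  have hB0 : 0 ≤ (1 + 10 * C2) * L + C2 * (TT.card * Ex) := by positivity
  have hmain : ((TT.card : ℝ) * Real.exp (-(l * v))) ^ 2
      ≤ (3 * DD k L / y) ^ l * (TT.card * (y ^ l * ((1 + 10 * C2) * L + C2 * (TT.card * Ex)))) :=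
    hH.trans (mul_le_mul hsq hdouble (Finset.sum_nonneg fun _ _ =>
      Finset.sum_nonneg fun _ _ => norm_nonneg _) (by positivity))
  have hmain2 : (TT.card : ℝ) ≤ (3 * DD k L) ^ l * Real.exp (2 * l * v) *
      ((1 + 10 * C2) * L + C2 * (TT.card * Ex)) := by
    have e1 : (3 * DD k L / y) ^ l * (TT.card * (y ^ l * ((1 + 10 * C2) * L + C2 * (TT.card * Ex))))
        = TT.card * ((3 * DD k L) ^ l * ((1 + 10 * C2) * L + C2 * (TT.card * Ex))) := by
      rw [div_pow]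
      field_simp
    rw [e1] at hmain
    have e2 : ((TT.card : ℝ) * Real.exp (-(l * v))) ^ 2
        = TT.card * (TT.card * Real.exp (-(2 * l * v))) := by
      rw [mul_pow, ← Real.exp_nat_mul, pow_two]
      have : ((2 : ℕ) : ℝ) * (-(l * v)) = -(2 * l * v) := by push_cast; ring
      rw [this]
      ring
    rw [e2] at hmain
    have h3 := le_of_mul_le_mul_left hmain hTpos
    have h4 := mul_le_mul_of_nonneg_right h3 (Real.exp_pos (2 * l * v)).le
    have e3 : (TT.card : ℝ) * Real.exp (-(2 * l * v)) * Real.exp (2 * l * v) = TT.card := by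
      rw [mul_assoc, ← Real.exp_add, neg_add_cancel, Real.exp_zero, mul_one]
    rw [e3] at h4
    calc (TT.card : ℝ) ≤ _ := h4
      _ = _ := by ring
  have hsmall : (3 * DD k L) ^ l * Real.exp (2 * l * v) * (C2 * Ex) ≤ 1 / 2 := by
    have h3D : (0 : ℝ) < 3 * DD k L := by positivity
    have e1 : (3 * DD k L) ^ l = Real.exp (l * Real.log (3 * DD k L)) := by
      rw [Real.exp_nat_mul, Real.exp_log h3D]
    have e2 : C2 = Real.exp (Real.log (2 * C2)) / 2 := by
      rw [Real.exp_log (by positivity)]; ring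
    rw [e1, e2, hEx]
    have e3 : Real.exp (l * Real.log (3 * DD k L)) * Real.exp (2 * l * v) *
        (Real.exp (Real.log (2 * C2)) / 2 * Real.exp (-(c * (l : ℝ) ^ 3 * η)))
        = Real.exp (l * Real.log (3 * DD k L) + 2 * l * v + Real.log (2 * C2)
          + -(c * (l : ℝ) ^ 3 * η)) / 2 := by
      rw [Real.exp_add, Real.exp_add, Real.exp_add]
      ring
    rw [e3]
    have hexp : l * Real.log (3 * DD k L) + 2 * l * v + Real.log (2 * C2)
          + -(c * (l : ℝ) ^ 3 * η) ≤ 0 := by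
      have hl0 : (0 : ℝ) < l := by linarith
      have hlogD : 0 ≤ Real.log (3 * DD k L) := Real.log_nonneg (by linarith)
      have h1 : l * (Real.log (3 * DD k L) + 2 * v + 1) ≤ c1 * ((l : ℝ) ^ 3 * η) := by
        have := mul_le_mul_of_nonneg_left hyp hl0.le
        calc _ ≤ (l : ℝ) * (c1 * (l : ℝ) ^ 2 * η) := this
          _ = _ := by ring
      have h2 : 1 ≤ c1 * ((l : ℝ) ^ 3 * η) := by
        refine le_trans ?_ h1
        nlinarith
      have h3 : c = c1 * (2 + |Real.log (2 * C2)|) := by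
        rw [hc1]; field_simp
      have h4 := le_abs_self (Real.log (2 * C2))
      have h5 : c * (l : ℝ) ^ 3 * η = c1 * ((l : ℝ) ^ 3 * η) * (2 + |Real.log (2 * C2)|) := by
        rw [h3]; ring
      rw [h5]
      set q := c1 * ((l : ℝ) ^ 3 * η) with hq
      have h6 : |Real.log (2 * C2)| ≤ q * |Real.log (2 * C2)| := by
        nlinarith [abs_nonneg (Real.log (2 * C2))]
      nlinarith
    have := Real.exp_le_one_iff.2 hexp
    linarith
  have hfin : (TT.card : ℝ) ≤ (3 * DD k L) ^ l * Real.exp (2 * l * v) * ((1 + 10 * C2) * L)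
      + TT.card / 2 := by
    have h1 := mul_le_mul_of_nonneg_right hsmall hTpos.le
    nlinarith [hmain2]
  have hP : 0 ≤ (3 * DD k L) ^ l * Real.exp (2 * l * v) * L := by positivity
  have hC3 := abs_nonneg C3
  nlinarith [mul_nonneg hC3 hP]

end MP14ee70.TY
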