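import Mathlib
import Pool.Agent.Lib.MP_14ee70_nt.TY.F.F2

/-!
# Project TY, file F/F2ab: the two forms of the large values estimate which are used

`F2a` (`v = 2`): `l = ⌈sqrt ((log (3D) + 5) / (c1 η))⌉`; `log (3D) + 5 ≤ 64 (log L)^2`, so `l ≤ C (log L) / sqrt η ≤ k`
(`k^2 η ≥ k η ≥ C (log L)^7`) and `#TT ≤ C L (3D)^l e^(4l) ≤ exp (CT (log L)^3 / sqrt η)`.
`F2b`: `l = ⌈sqrt ((log (3D) + 2V + 1) / (c1 η))⌉`; `V ≤ k (log L)^3` gives `l ≤ k / 40`
(`(64 (log L)^2 + 2 k (log L)^3)/(c1 η) ≤ (k/50)^2` by `k η ≥ C (log L)^7`), so `2 l V ≤ k V / 20`, and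
`l log(3D) + log (C L) ≤ C' (log L)^2 sqrt ((64 (log L)^2 + 2V + 1)/η) + .. ≤ k V / 20` (`V ≥ 3/2`; `sqrt (V) ≤ V`,
`k sqrt η ≥ C (log L)^3`).
-/

namespace MP14ee70.TY

open Finset

/-- The right side of `F2` as an exponential. -/
theorem F2ab_exp {C L D3 v : ℝ} {l : ℕ} (hC : 0 < C) (hL : 0 < L) (hD : 0 < D3) :
    C * L * D3 ^ l * Real.exp (2 * l * v) ≤
      Real.exp (|Real.log C| + Real.log L + l * Real.log D3 + 2 * l * v) := by
  rw [Real.exp_add, Real.exp_add, Real.exp_add, Real.exp_log hL]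
  have h1 : Real.exp (l * Real.log D3) = D3 ^ l := by
    rw [mul_comm, Real.exp_mul, Real.exp_log hD, Real.rpow_natCast]
  rw [h1]
  have h2 : C ≤ Real.exp |Real.log C| := by
    conv_lhs => rw [← Real.exp_log hC]
    exact Real.exp_le_exp.mpr (le_abs_self _)
  have h3 : 0 < D3 ^ l := pow_pos hD l
  gcongr

/-- The choice of `l`. -/
theorem F2ab_l {c1 η x : ℝ} (hc1 : 0 < c1) (hη : 0 < η) (hx : 0 < x) :
    1 ≤ ⌈Real.sqrt (x / (c1 * η))⌉₊ ∧
    ((⌈Real.sqrt (x / (c1 * η))⌉₊ : ℕ) : ℝ) ≤ Real.sqrt (x / (c1 * η)) + 1 ∧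
    x ≤ c1 * ((⌈Real.sqrt (x / (c1 * η))⌉₊ : ℕ) : ℝ) ^ 2 * η := by
  have h0 : 0 < x / (c1 * η) := by positivity
  have h1 : 0 < Real.sqrt (x / (c1 * η)) := Real.sqrt_pos.mpr h0
  refine ⟨Nat.one_le_iff_ne_zero.mpr (Nat.ceil_pos.mpr h1).ne', (Nat.ceil_lt_add_one h1.le).le, ?_⟩
  have h2 := Nat.le_ceil (Real.sqrt (x / (c1 * η)))
  have h3 : x / (c1 * η) ≤ ((⌈Real.sqrt (x / (c1 * η))⌉₊ : ℕ) : ℝ) ^ 2 := by
    calc x / (c1 * η) = Real.sqrt (x / (c1 * η)) ^ 2 := (Real.sq_sqrt h0.le).symm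
      _ ≤ _ := pow_le_pow_left₀ h1.le h2 2
  rw [div_le_iff₀ (by positivity)] at h3
  linarith

theorem F2a : ∃ CT : ℝ, 0 < CT ∧ ∃ C : ℝ, ∀ (N k : ℕ) (L y η : ℝ), RegF C N k L y η →
    ∀ TT : Finset ℝ, Sep ((N : ℝ) ^ 3) TT → (∀ τ ∈ TT, Real.exp (-2) ≤ ‖mu y (K0 L) τ‖) →
    (TT.card : ℝ) ≤ Real.exp (CT * Real.log L ^ 3 / Real.sqrt η) := by
  obtain ⟨c1, hc1, C, hC, hF2⟩ := F2
  refine ⟨|Real.log C| + 1 + 67 * (Real.sqrt (68 / c1) + 1), by positivity,
    max C (68 / c1), ?_⟩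
  intro N k L y η h TT hTT hmu
  have hR : RegF C N k L y η := h.mono (le_max_left _ _)
  have hR2 : RegF (68 / c1) N k L y η := h.mono (le_max_right _ _)
  have hLL := hR.one_le_logL
  have hL0 : 0 < L := lt_of_lt_of_le one_pos hR.one_le_L
  have hη := hR.η_pos
  have hk1 := hR.one_le_k
  have hη1 : η ≤ 1 := hR.η_hi.trans (Real.rpow_le_one_of_one_le_of_nonpos hR.one_le_L (by norm_num))
  have hD := hR.logD
  have hDD := hR.one_le_D
  have hLL2 : 1 ≤ Real.log L ^ 2 := one_le_pow₀ hLL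
  have hx0 : 0 < Real.log (3 * DD k L) + 5 := by
    have : 0 ≤ Real.log (3 * DD k L) := Real.log_nonneg (by linarith)
    linarith
  obtain ⟨hl1, hl2, hl3⟩ := F2ab_l hc1 hη hx0
  set l := ⌈Real.sqrt ((Real.log (3 * DD k L) + 5) / (c1 * η))⌉₊ with hl
  have hxle : Real.log (3 * DD k L) + 5 ≤ 68 * Real.log L ^ 2 := by linarith
  -- `l ≤ k`
  have hlk : l ≤ k := by
    rw [hl, Nat.ceil_le]
    apply Real.sqrt_le_iff.mpr ⟨by positivity, ?_⟩
    rw [div_le_iff₀ (by positivity)]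
    have h1 := hR2.kη
    have h2 : Real.log L ^ 2 ≤ Real.log L ^ 7 := pow_le_pow_right₀ hLL (by norm_num)
    have h3 : 68 / c1 * Real.log L ^ 2 ≤ k * η := by
      refine le_trans ?_ h1
      gcongr
    have h4 : 68 * Real.log L ^ 2 ≤ c1 * (k * η) := by
      rw [div_mul_eq_mul_div, div_le_iff₀ hc1] at h3
      linarith
    have h5 : c1 * (k * η) ≤ (k : ℝ) ^ 2 * (c1 * η) := by
      have hk1' : (1 : ℝ) ≤ k := by exact_mod_cast hk1
      have : (k : ℝ) ≤ (k : ℝ) ^ 2 := by nlinarith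
      have h6 : (k : ℝ) * (c1 * η) ≤ (k : ℝ) ^ 2 * (c1 * η) := by gcongr
      linarith
    linarith
  have hF := hF2 N k L y η hR TT 2 l hTT (by norm_num) hmu hl1 hlk (by linarith)
  refine hF.trans ((F2ab_exp hC hL0 (by linarith)).trans (Real.exp_le_exp.mpr ?_))
  -- the exponent
  have hs0 : 0 < Real.sqrt η := Real.sqrt_pos.mpr hη
  have hs1 : Real.sqrt η ≤ 1 := Real.sqrt_le_one.mpr hη1
  have hl4 : (l : ℝ) ≤ Real.sqrt (68 / c1) * Real.log L / Real.sqrt η + 1 := by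
    refine hl2.trans ?_
    have h1 : Real.sqrt ((Real.log (3 * DD k L) + 5) / (c1 * η)) ≤
        Real.sqrt (68 / c1) * Real.log L / Real.sqrt η := by
      have h2 : (Real.log (3 * DD k L) + 5) / (c1 * η) ≤ 68 / c1 * Real.log L ^ 2 / η := by
        rw [div_mul_eq_mul_div, div_div]
        gcongr
      refine (Real.sqrt_le_sqrt h2).trans (le_of_eq ?_)
      rw [Real.sqrt_div (by positivity), Real.sqrt_mul (by positivity), Real.sqrt_sq (by linarith)]
    linarith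
  have hinv : 1 ≤ 1 / Real.sqrt η := by
    rw [le_div_iff₀ hs0]
    linarith
  have hl5 : (l : ℝ) ≤ (Real.sqrt (68 / c1) + 1) * (Real.log L / Real.sqrt η) := by
    have h1 : 1 ≤ Real.log L / Real.sqrt η := by
      rw [le_div_iff₀ hs0]
      linarith
    calc (l : ℝ) ≤ Real.sqrt (68 / c1) * Real.log L / Real.sqrt η + 1 := hl4
      _ ≤ Real.sqrt (68 / c1) * (Real.log L / Real.sqrt η) + Real.log L / Real.sqrt η := by
        rw [mul_div_assoc]
        linarith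
      _ = _ := by ring
  have hl6 : (l : ℝ) * (Real.log (3 * DD k L) + 4) ≤
      67 * (Real.sqrt (68 / c1) + 1) * (Real.log L ^ 3 / Real.sqrt η) := by
    have h1 : Real.log (3 * DD k L) + 4 ≤ 67 * Real.log L ^ 2 := by linarith
    calc (l : ℝ) * (Real.log (3 * DD k L) + 4) ≤ (l : ℝ) * (67 * Real.log L ^ 2) := by gcongr
      _ ≤ ((Real.sqrt (68 / c1) + 1) * (Real.log L / Real.sqrt η)) * (67 * Real.log L ^ 2) := by
        gcongr
      _ = _ := by ring
  have hb : 1 ≤ Real.log L ^ 3 / Real.sqrt η := by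
    rw [le_div_iff₀ hs0]
    have : 1 ≤ Real.log L ^ 3 := one_le_pow₀ hLL
    linarith
  have hb2 : Real.log L ≤ Real.log L ^ 3 / Real.sqrt η := by
    rw [le_div_iff₀ hs0]
    have h1 : Real.log L ≤ Real.log L ^ 3 := le_self_pow₀ hLL (by norm_num)
    have h2 : Real.log L * Real.sqrt η ≤ Real.log L := mul_le_of_le_one_right (by linarith) hs1
    linarith
  have hb3 : |Real.log C| ≤ |Real.log C| * (Real.log L ^ 3 / Real.sqrt η) :=
    le_mul_of_one_le_right (abs_nonneg _) hb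
  calc |Real.log C| + Real.log L + l * Real.log (3 * DD k L) + 2 * l * 2
      = |Real.log C| + Real.log L + (l : ℝ) * (Real.log (3 * DD k L) + 4) := by ring
    _ ≤ |Real.log C| * (Real.log L ^ 3 / Real.sqrt η) + Real.log L ^ 3 / Real.sqrt η +
        67 * (Real.sqrt (68 / c1) + 1) * (Real.log L ^ 3 / Real.sqrt η) := by linarith
    _ = _ := by ring

theorem F2b : ∃ C : ℝ, ∀ (N k : ℕ) (L y η : ℝ), RegF C N k L y η →
    ∀ (TT : Finset ℝ) (V : ℝ), Sep ((N : ℝ) ^ 3) TT → 3 / 2 ≤ V → V ≤ k * Real.log L ^ 3 →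
    (∀ τ ∈ TT, Real.exp (-V) ≤ ‖mu y (K0 L) τ‖) → (TT.card : ℝ) ≤ Real.exp (k * V / 10) := by
  obtain ⟨c1, hc1, C, hC, hF2⟩ := F2
  refine ⟨max C (max (66 * 6400 / c1) (max 80
    (20 * (64 + 63 * Real.sqrt (66 / c1) + |Real.log C|)))), ?_⟩
  intro N k L y η h TT V hTT hV1 hV2 hmu
  have hR : RegF C N k L y η := h.mono (le_max_left _ _)
  have h' := h.mono (le_max_right _ _)
  have hR2 : RegF (66 * 6400 / c1) N k L y η := h'.mono (le_max_left _ _)
  have h'' := h'.mono (le_max_right _ _)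
  have hR3 : RegF 80 N k L y η := h''.mono (le_max_left _ _)
  have hR4 := h''.mono (le_max_right _ _)
  set C4 := 20 * (64 + 63 * Real.sqrt (66 / c1) + |Real.log C|) with hC4
  have hC4pos : 0 < C4 := by positivity
  have hLL := hR.one_le_logL
  have hL0 : 0 < L := lt_of_lt_of_le one_pos hR.one_le_L
  have hη := hR.η_pos
  have hk1 := hR.one_le_k
  have hk80 := hR3.kbig
  have hη1 : η ≤ 1 := hR.η_hi.trans (Real.rpow_le_one_of_one_le_of_nonpos hR.one_le_L (by norm_num))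
  have hD := hR.logD
  have hDD := hR.one_le_D
  have hLL2 : 1 ≤ Real.log L ^ 2 := one_le_pow₀ hLL
  have hlogD0 : 0 ≤ Real.log (3 * DD k L) := Real.log_nonneg (by linarith)
  have hx0 : 0 < Real.log (3 * DD k L) + 2 * V + 1 := by linarith
  obtain ⟨hl1, hl2, hl3⟩ := F2ab_l hc1 hη hx0
  set l := ⌈Real.sqrt ((Real.log (3 * DD k L) + 2 * V + 1) / (c1 * η))⌉₊ with hl
  have hLL3 : Real.log L ^ 2 ≤ Real.log L ^ 3 := pow_le_pow_right₀ hLL (by norm_num)
  -- `l ≤ k / 40`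
  have hx1 : Real.log (3 * DD k L) + 2 * V + 1 ≤ 66 * (k * Real.log L ^ 3) := by
    have h1 : Real.log L ^ 2 ≤ k * Real.log L ^ 3 := by
      have h2 : 0 ≤ Real.log L ^ 3 := by positivity
      nlinarith
    linarith
  have hsq : Real.sqrt ((Real.log (3 * DD k L) + 2 * V + 1) / (c1 * η)) ≤ k / 80 := by
    apply Real.sqrt_le_iff.mpr ⟨by positivity, ?_⟩
    rw [div_le_iff₀ (by positivity)]
    have h1 := hR2.kη
    have h2 : Real.log L ^ 3 ≤ Real.log L ^ 7 := pow_le_pow_right₀ hLL (by norm_num)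
    have h3 : 66 * 6400 / c1 * Real.log L ^ 3 ≤ k * η := by
      refine le_trans ?_ h1
      gcongr
    have h4 : 66 * 6400 * Real.log L ^ 3 ≤ c1 * (k * η) := by
      rw [div_mul_eq_mul_div, div_le_iff₀ hc1] at h3
      linarith
    have h5 : 66 * (k * Real.log L ^ 3) ≤ (k / 80) ^ 2 * (c1 * η) := by
      have h6 : (k : ℝ) * (66 * 6400 * Real.log L ^ 3) ≤ k * (c1 * (k * η)) := by gcongr
      nlinarith
    linarith
  have hl40 : (l : ℝ) ≤ k / 40 := by linarith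
  have hlk : l ≤ k := by
    have h1 : (l : ℝ) ≤ k := by linarith
    exact_mod_cast h1
  have hF := hF2 N k L y η hR TT V l hTT (by linarith) hmu hl1 hlk hl3
  refine hF.trans ((F2ab_exp hC hL0 (by linarith)).trans (Real.exp_le_exp.mpr ?_))
  -- the exponent
  have hs0 : 0 < Real.sqrt η := Real.sqrt_pos.mpr hη
  have hs1 : Real.sqrt η ≤ 1 := Real.sqrt_le_one.mpr hη1
  have hsη : η ≤ Real.sqrt η := by
    have h1 := Real.mul_self_sqrt hη.le
    nlinarith
  have hk4 : C4 * Real.log L ^ 3 ≤ k * Real.sqrt η := by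
    have h1 := hR4.kη
    have h2 : Real.log L ^ 3 ≤ Real.log L ^ 7 := pow_le_pow_right₀ hLL (by norm_num)
    have h3 : C4 * Real.log L ^ 3 ≤ C4 * Real.log L ^ 7 := by gcongr
    have h4 : (k : ℝ) * η ≤ k * Real.sqrt η := by gcongr
    linarith
  have hq : Real.log L ^ 3 / Real.sqrt η ≤ k / C4 := by
    rw [div_le_div_iff₀ hs0 hC4pos]
    linarith
  have hl4 : (l : ℝ) ≤ V * (Real.sqrt (66 / c1) * Real.log L / Real.sqrt η) + 1 := by
    refine hl2.trans ?_
    have h1 : Real.sqrt ((Real.log (3 * DD k L) + 2 * V + 1) / (c1 * η)) ≤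
        V * (Real.sqrt (66 / c1) * Real.log L / Real.sqrt η) := by
      have h2 : (Real.log (3 * DD k L) + 2 * V + 1) / (c1 * η) ≤
          66 / c1 * (V * Real.log L) ^ 2 / η := by
        rw [div_mul_eq_mul_div, div_div]
        have h3 : Real.log (3 * DD k L) + 2 * V + 1 ≤ 66 * (V * Real.log L) ^ 2 := by
          have h4 : 1 ≤ V ^ 2 := by nlinarith
          have h5 : V ≤ V ^ 2 := by nlinarith
          have h6 : Real.log L ^ 2 ≤ V ^ 2 * Real.log L ^ 2 := by nlinarith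
          have h7 : V ^ 2 ≤ V ^ 2 * Real.log L ^ 2 := by nlinarith
          have h8 : (V * Real.log L) ^ 2 = V ^ 2 * Real.log L ^ 2 := by ring
          rw [h8]
          linarith
        gcongr
      refine (Real.sqrt_le_sqrt h2).trans (le_of_eq ?_)
      rw [Real.sqrt_div (by positivity), Real.sqrt_mul (by positivity),
        Real.sqrt_sq (by positivity)]
      ring
    linarith
  have hl6 : (l : ℝ) * Real.log (3 * DD k L) ≤
      63 * Real.sqrt (66 / c1) * V * (Real.log L ^ 3 / Real.sqrt η) + 63 * Real.log L ^ 3 := by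
    calc (l : ℝ) * Real.log (3 * DD k L) ≤ (l : ℝ) * (63 * Real.log L ^ 2) := by gcongr
      _ ≤ (V * (Real.sqrt (66 / c1) * Real.log L / Real.sqrt η) + 1) * (63 * Real.log L ^ 2) := by
        gcongr
      _ = 63 * Real.sqrt (66 / c1) * V * (Real.log L ^ 3 / Real.sqrt η) + 63 * Real.log L ^ 2 := by
        ring
      _ ≤ _ := by linarith
  have hcube : Real.log L ^ 3 ≤ Real.log L ^ 3 / Real.sqrt η := by
    rw [le_div_iff₀ hs0]
    exact mul_le_of_le_one_right (by positivity) hs1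
  have hb0 : Real.log L ^ 3 ≤ k / C4 := hcube.trans hq
  have hb1 : Real.log L ≤ k / C4 := (le_self_pow₀ hLL (by norm_num)).trans hb0
  have hkC : 1 ≤ k / C4 := by
    rw [le_div_iff₀ hC4pos]
    linarith [hR4.kbig]
  have hb2 : |Real.log C| ≤ |Real.log C| * (k / C4) :=
    le_mul_of_one_le_right (abs_nonneg _) hkC
  have hV0 : 0 ≤ V := by linarith
  have hq2 : 63 * Real.sqrt (66 / c1) * V * (Real.log L ^ 3 / Real.sqrt η) ≤
      63 * Real.sqrt (66 / c1) * V * (k / C4) := by gcongr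
  have hkey : |Real.log C| + Real.log L + l * Real.log (3 * DD k L) ≤ k * V / 20 := by
    have h1 : |Real.log C| + Real.log L + l * Real.log (3 * DD k L) ≤
        (k / C4) * (|Real.log C| + 64 + 63 * Real.sqrt (66 / c1) * V) := by
      have h2 : (k / C4) * (|Real.log C| + 64 + 63 * Real.sqrt (66 / c1) * V) =
        |Real.log C| * (k / C4) + (k / C4) + 63 * (k / C4) +
          63 * Real.sqrt (66 / c1) * V * (k / C4) := by ring
      rw [h2]
      linarith
    have h3 : |Real.log C| + 64 + 63 * Real.sqrt (66 / c1) * V ≤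
        (64 + 63 * Real.sqrt (66 / c1) + |Real.log C|) * V := by
      have h4 : 0 ≤ |Real.log C| := abs_nonneg _
      nlinarith
    have h5 : (64 + 63 * Real.sqrt (66 / c1) + |Real.log C|) = C4 / 20 := by rw [hC4]; ring
    calc _ ≤ (k / C4) * (|Real.log C| + 64 + 63 * Real.sqrt (66 / c1) * V) := h1
      _ ≤ (k / C4) * (C4 / 20 * V) := by
        rw [← h5]
        gcongr
      _ = k * V / 20 := by field_simp
  have h2l : 2 * (l : ℝ) * V ≤ k * V / 20 := by nlinarith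
  linarith

end MP14ee70.TY
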